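import Pool.Agent.Lib.MP_d02974_an.Plane

/-!
The field is quasi-continuous everywhere, and neither approximately continuous nor jumping at points
with divergent truncations.
-/

namespace Pool.Agent.Lib.MP_d02974_an

open MeasureTheory Filter Topology Set
open scoped ENNReal Real

section

variable {t : ℕ → ℝ} (ht : Scale t) (x₀ : ℂ)

include ht

lemma avg_dev_le (k : ℕ) (ω : Seq) :
    ⨍ y in Metric.ball (io (pt x₀ t ω)) (t k), ‖uu x₀ t y - io (Tk x₀ t k ω)‖ ≤ devc t k := by
  refine avg_le ht x₀ (ht.pos k) (devc_nonneg ht k) ?_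
  rw [lintegral_uu_sub]
  refine (lintegral_dev_le ht x₀ k ω).trans (ENNReal.ofReal_le_ofReal (le_of_eq ?_))
  ring

/-- If the averages of `|u - c|` over sets comparable to the balls of radius `t_k` tend to zero, the
truncations converge. -/
lemma Tk_tendsto_of_avg {ω : Seq} {c : Sp 2} {A : ℕ → Set (Sp 2)} {C : ℝ} (hC : 0 ≤ C)
    (hA : ∀ k, A k ⊆ Metric.ball (io (pt x₀ t ω)) (t k))
    (hvol : ∀ k, volume.real (Metric.ball (io (pt x₀ t ω)) (t k)) ≤ C * volume.real (A k))
    (hlim : Tendsto (fun k => ⨍ y in A k, ‖uu x₀ t y - c‖) atTop (𝓝 0)) :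
    Tendsto (fun k => Tk x₀ t k ω) atTop (𝓝 (io.symm c)) := by
  have hb : ∀ k, 0 < volume.real (Metric.ball (io (pt x₀ t ω)) (t k)) := by
    intro k
    rw [real_volume_ball_two _ (ht.pos k).le]
    have := ht.pos k
    positivity
  have hA0 : ∀ k, 0 < volume.real (A k) := by
    intro k
    have h1 := lt_of_lt_of_le (hb k) (hvol k)
    by_contra h
    have h2 : volume.real (A k) = 0 := le_antisymm (not_lt.1 h) measureReal_nonneg
    rw [h2, mul_zero] at h1
    exact lt_irrefl _ h1
  have hkey : ∀ k, ‖io (Tk x₀ t k ω) - c‖ ≤ C * devc t k + ⨍ y in A k, ‖uu x₀ t y - c‖ := by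
    intro k
    have hint := integrableOn_uu_ball ht x₀ (io (pt x₀ t ω)) (t k)
    have h1 := norm_sub_le_average (hA0 k) (hint.mono_set (hA k)) (io (Tk x₀ t k ω)) c
    have h2 : ⨍ y in A k, ‖uu x₀ t y - io (Tk x₀ t k ω)‖ ≤
        C * ⨍ y in Metric.ball (io (pt x₀ t ω)) (t k), ‖uu x₀ t y - io (Tk x₀ t k ω)‖ := by
      refine average_subset_le (hA k) hC (hA0 k) (hvol k) (hb k) (fun y => norm_nonneg _) ?_
      have : IntegrableOn (fun _ : Sp 2 => io (Tk x₀ t k ω))
          (Metric.ball (io (pt x₀ t ω)) (t k)) :=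
        integrableOn_const (by rw [volume_ball_two _ (ht.pos k).le]; exact ENNReal.ofReal_ne_top)
      exact (hint.sub this).norm
    have h3 := avg_dev_le ht x₀ k ω
    have h4 : C * ⨍ y in Metric.ball (io (pt x₀ t ω)) (t k), ‖uu x₀ t y - io (Tk x₀ t k ω)‖ ≤
      C * devc t k := by gcongr
    linarith
  have hlim2 : Tendsto (fun k => C * devc t k + ⨍ y in A k, ‖uu x₀ t y - c‖) atTop (𝓝 0) := by
    have := ((tendsto_devc ht).const_mul C).add hlim
    simpa using this
  have h5 : Tendsto (fun k => ‖io (Tk x₀ t k ω) - c‖) atTop (𝓝 0) :=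
    squeeze_zero (fun k => norm_nonneg _) hkey hlim2
  have h6 : Tendsto (fun k => io (Tk x₀ t k ω)) atTop (𝓝 c) := tendsto_iff_norm_sub_tendsto_zero.2 h5
  have h7 := (io.symm.continuous.tendsto c).comp h6
  refine h7.congr (fun k => ?_)
  simp

omit ht in
lemma half_ball_volume (x ν : Sp 2) (hν : ‖ν‖ = 1) {r : ℝ} (hr : 0 < r) {S : Set (Sp 2)}
    (hS : ∀ y, y ∈ Metric.ball x r → 0 < inner ℝ (y - x) ν → y ∈ S)
    (hfin : volume S ≠ ∞) :
    volume.real (Metric.ball x r) ≤ 4 * volume.real S := by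
  have hsub : Metric.ball (x + (r / 2) • ν) (r / 2) ⊆ S := by
    intro y hy
    rw [Metric.mem_ball, dist_eq_norm] at hy
    have h1 : y - x = (y - (x + (r / 2) • ν)) + (r / 2) • ν := by abel
    have h2 : ‖(r / 2) • ν‖ = r / 2 := by
      rw [norm_smul, hν, mul_one, Real.norm_of_nonneg (by positivity)]
    apply hS
    · rw [Metric.mem_ball, dist_eq_norm, h1]
      refine lt_of_le_of_lt (norm_add_le _ _) ?_
      rw [h2]
      linarith
    · rw [h1, inner_add_left, inner_smul_left, real_inner_self_eq_norm_sq, hν]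
      have h3 : |inner ℝ (y - (x + (r / 2) • ν)) ν| ≤ ‖y - (x + (r / 2) • ν)‖ * ‖ν‖ :=
        abs_real_inner_le_norm _ _
      rw [hν, mul_one] at h3
      have h4 := (abs_le.1 h3).1
      simp only [conj_trivial, one_pow, mul_one]
      linarith
  have h1 : volume.real (Metric.ball (x + (r / 2) • ν) (r / 2)) ≤ volume.real S :=
    measureReal_mono hsub hfin
  rw [real_volume_ball_two _ (by positivity)] at h1
  rw [real_volume_ball_two _ hr.le]
  nlinarith

lemma tendsto_t_right : Tendsto t atTop (𝓝[>] 0) := by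
  rw [tendsto_nhdsWithin_iff]
  exact ⟨ht.tendsto_zero, Eventually.of_forall fun k => ht.pos k⟩

/-- At a point with divergent truncations the field is neither approximately continuous, nor does it
have a jump. -/
lemma mem_disc_diff_jump {Ω : Set (Sp 2)} {ω : Seq} (hΩ : io (pt x₀ t ω) ∈ Ω)
    (hω : ∀ c, ¬ Tendsto (fun k => Tk x₀ t k ω) atTop (𝓝 c)) :
    io (pt x₀ t ω) ∈ approxDisc Ω (uu x₀ t) \ jumpSet Ω (uu x₀ t) := by
  refine ⟨⟨hΩ, ?_⟩, ?_⟩
  · rintro ⟨z, hz⟩
    refine hω _ (Tk_tendsto_of_avg ht x₀ (c := z) (C := 1) zero_le_one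
      (A := fun k => Metric.ball (io (pt x₀ t ω)) (t k)) (fun k => Subset.rfl)
      (fun k => by rw [one_mul]) ?_)
    exact hz.comp (tendsto_t_right ht)
  · rintro ⟨-, a, b, ν, -, hν, ha, -⟩
    refine hω _ (Tk_tendsto_of_avg ht x₀ (c := a) (C := 4) (by norm_num)
      (A := fun k => {y | y ∈ Metric.ball (io (pt x₀ t ω)) (t k) ∧
        0 < inner ℝ (y - io (pt x₀ t ω)) ν}) (fun k => ?_) (fun k => ?_) ?_)
    · intro y hy; exact hy.1
    · refine half_ball_volume _ ν hν (ht.pos k) (fun y hy1 hy2 => ⟨hy1, hy2⟩) ?_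
      refine ne_top_of_le_ne_top ?_ (measure_mono (t := Metric.ball (io (pt x₀ t ω)) (t k))
        (fun y hy => hy.1))
      rw [volume_ball_two _ (ht.pos k).le]
      exact ENNReal.ofReal_ne_top
    · exact ha.comp (tendsto_t_right ht)

end

/-- Mean oscillation against the mean is at most twice the mean deviation from any constant. -/
lemma osc_le {x : Sp 2} {r : ℝ} (hr : 0 < r) {f : Sp 2 → Sp 2}
    (hf : IntegrableOn f (Metric.ball x r)) (c : Sp 2) :
    ⨍ y in Metric.ball x r, ‖f y - ⨍ w in Metric.ball x r, f w‖ ≤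
      2 * ⨍ y in Metric.ball x r, ‖f y - c‖ := by
  set B := Metric.ball x r with hB
  set m := ⨍ w in B, f w with hm
  have hfin : volume B ≠ ∞ := by rw [hB, volume_ball_two _ hr.le]; exact ENNReal.ofReal_ne_top
  have hne : volume B ≠ 0 := by
    rw [hB, volume_ball_two _ hr.le]
    have : 0 < π * r ^ 2 := by positivity
    exact (ENNReal.ofReal_pos.2 this).ne'
  have : IsFiniteMeasure (volume.restrict B) := ⟨by
    rw [Measure.restrict_apply_univ]; exact lt_top_iff_ne_top.2 hfin⟩
  have i1 : IntegrableOn (fun y => ‖f y - c‖) B := (hf.sub (integrable_const c)).norm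
  have h1 : ‖c - m‖ ≤ ⨍ y in B, ‖f y - c‖ := by
    have h2 : m - c = ⨍ y in B, (f y - c) := by
      rw [setAverage_eq, integral_sub hf (integrable_const c), smul_sub, ← setAverage_eq,
        ← setAverage_eq (f := fun _ => c), setAverage_const hne hfin]
    rw [← norm_neg, neg_sub, h2, setAverage_eq, setAverage_eq, norm_smul, smul_eq_mul,
      Real.norm_of_nonneg (by positivity)]
    gcongr
    exact norm_integral_le_integral_norm _
  have h3 : ⨍ y in B, ‖f y - m‖ ≤ ⨍ y in B, (‖f y - c‖ + ‖c - m‖) := by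
    rw [setAverage_eq, setAverage_eq, smul_eq_mul, smul_eq_mul]
    refine mul_le_mul_of_nonneg_left ?_ (by positivity)
    refine integral_mono (hf.sub (integrable_const m)).norm (i1.add (integrable_const _))
      (fun y => ?_)
    have : f y - m = (f y - c) + (c - m) := by abel
    simp only
    rw [this]
    exact norm_add_le _ _
  have h4 : ⨍ y in B, (‖f y - c‖ + ‖c - m‖) = (⨍ y in B, ‖f y - c‖) + ‖c - m‖ := by
    rw [setAverage_eq, integral_add i1 (integrable_const _), smul_add, ← setAverage_eq,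
      ← setAverage_eq (f := fun _ => ‖c - m‖), setAverage_const hne hfin]
  linarith

section

variable {t : ℕ → ℝ} (ht : Scale t) (x₀ : ℂ)

include ht

lemma quasi_on (ω : Seq) : QuasiContAt (uu x₀ t) (io (pt x₀ t ω)) := by
  unfold QuasiContAt
  rw [Metric.tendsto_nhdsWithin_nhds]
  intro ε hε
  obtain ⟨δ, hδ, h⟩ := exists_small_dev ht x₀ (ε := ε / 4) (by positivity)
  refine ⟨δ, hδ, fun r hr hrδ => ?_⟩
  have hr0 : 0 < r := hr
  rw [Real.dist_eq, sub_zero, abs_of_pos hr0] at hrδ
  obtain ⟨k, hk⟩ := h ω r hr0 hrδ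
  have h1 := osc_le hr0 (integrableOn_uu_ball ht x₀ (io (pt x₀ t ω)) r) (io (Tk x₀ t k ω))
  have h2 : ⨍ y in Metric.ball (io (pt x₀ t ω)) r, ‖uu x₀ t y - io (Tk x₀ t k ω)‖ ≤ ε / 4 :=
    avg_le ht x₀ hr0 (by positivity) (by rw [lintegral_uu_sub]; exact hk)
  have h3 : 0 ≤ ⨍ y in Metric.ball (io (pt x₀ t ω)) r,
      ‖uu x₀ t y - ⨍ w in Metric.ball (io (pt x₀ t ω)) r, uu x₀ t w‖ := by
    rw [setAverage_eq, smul_eq_mul]
    exact mul_nonneg (by positivity) (integral_nonneg (fun y => norm_nonneg _))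
  rw [Real.dist_eq, sub_zero, abs_of_nonneg h3]
  linarith

lemma continuousAt_cau {z : ℂ} (hz : z ∉ range (pt x₀ t)) : ContinuousAt (cau x₀ t) z := by
  have hclosed : IsClosed (range (pt x₀ t)) :=
    (isCompact_range (continuous_pt ht x₀)).isClosed
  obtain ⟨δ, hδ, hball⟩ := Metric.isOpen_iff.1 hclosed.isOpen_compl z hz
  have hfar : ∀ y ∈ Metric.ball z (δ / 2), ∀ ω, δ / 2 ≤ ‖y - pt x₀ t ω‖ := by
    intro y hy ω
    by_contra h
    push Not at h
    have : pt x₀ t ω ∈ Metric.ball z δ := by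
      rw [Metric.mem_ball] at hy ⊢
      rw [dist_comm] at hy
      rw [dist_comm]
      calc dist z (pt x₀ t ω) ≤ dist z y + dist y (pt x₀ t ω) := dist_triangle _ _ _
        _ < δ / 2 + δ / 2 := by rw [dist_eq_norm y]; linarith
        _ = δ := by ring
    exact hball this (mem_range_self ω)
  refine continuousAt_of_dominated (F := fun z ω => (z - pt x₀ t ω)⁻¹)
    (bound := fun _ => (δ / 2)⁻¹) ?_ ?_ (integrable_const _) ?_
  · exact Eventually.of_forall fun y => (measurable_kerz ht x₀ y).aestronglyMeasurable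
  · filter_upwards [Metric.ball_mem_nhds z (by positivity : (0:ℝ) < δ / 2)] with y hy
    refine Eventually.of_forall fun ω => ?_
    rw [norm_inv]
    exact inv_anti₀ (by positivity) (hfar y hy ω)
  · refine Eventually.of_forall fun ω => ?_
    refine ContinuousAt.inv₀ (by fun_prop) ?_
    intro h
    exact hz ⟨ω, (sub_eq_zero.1 h).symm⟩

lemma quasi_off {x : Sp 2} (hx : io.symm x ∉ range (pt x₀ t)) : QuasiContAt (uu x₀ t) x := by
  have hcont : ContinuousAt (uu x₀ t) x := by
    unfold uu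
    exact io.continuous.continuousAt.comp
      ((continuousAt_cau ht x₀ hx).comp io.symm.continuous.continuousAt)
  unfold QuasiContAt
  rw [Metric.tendsto_nhdsWithin_nhds]
  intro ε hε
  obtain ⟨δ, hδ, h⟩ := Metric.continuousAt_iff.1 hcont (ε / 4) (by positivity)
  refine ⟨δ, hδ, fun r hr hrδ => ?_⟩
  have hr0 : 0 < r := hr
  rw [Real.dist_eq, sub_zero, abs_of_pos hr0] at hrδ
  have h1 := osc_le hr0 (integrableOn_uu_ball ht x₀ x r) (uu x₀ t x)
  have h2 : ⨍ y in Metric.ball x r, ‖uu x₀ t y - uu x₀ t x‖ ≤ ε / 4 := by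
    refine avg_le ht x₀ hr0 (by positivity) ?_
    calc ∫⁻ y in Metric.ball x r, ‖uu x₀ t y - uu x₀ t x‖ₑ
        ≤ ∫⁻ y in Metric.ball x r, ENNReal.ofReal (ε / 4) := by
          refine setLIntegral_mono measurable_const (fun y hy => ?_)
          rw [← ofReal_norm]
          apply ENNReal.ofReal_le_ofReal
          have := h (lt_trans (Metric.mem_ball.1 hy) hrδ)
          rw [dist_eq_norm] at this
          exact this.le
      _ = _ := by
          rw [setLIntegral_const, volume_ball_two _ hr0.le, ← ENNReal.ofReal_mul (by positivity)]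
  have h3 : 0 ≤ ⨍ y in Metric.ball x r, ‖uu x₀ t y - ⨍ w in Metric.ball x r, uu x₀ t w‖ := by
    rw [setAverage_eq, smul_eq_mul]
    exact mul_nonneg (by positivity) (integral_nonneg (fun y => norm_nonneg _))
  rw [Real.dist_eq, sub_zero, abs_of_nonneg h3]
  linarith

lemma quasi_all (x : Sp 2) : QuasiContAt (uu x₀ t) x := by
  by_cases hx : io.symm x ∈ range (pt x₀ t)
  · obtain ⟨ω, hω⟩ := hx
    have : x = io (pt x₀ t ω) := by rw [hω]; simp
    rw [this]
    exact quasi_on ht x₀ ω
  · exact quasi_off ht x₀ hx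

end

end Pool.Agent.Lib.MP_d02974_an
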