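import Pool.Agent.Lib.MP_d02974_an.Trans

/-!
The distributional identity `2 ∂̄ (Cauchy transform) = 2 π · law`, by Fubini.
-/

namespace Pool.Agent.Lib.MP_d02974_an

open MeasureTheory Filter Topology Set
open scoped ENNReal Real

section point

lemma integrable_mul_inv {g : ℂ → ℂ} (hg : Continuous g) (hgc : HasCompactSupport g) (w : ℂ) :
    Integrable (fun z => g z * (z - w)⁻¹) ∧
    ∃ C : ℝ≥0∞, C ≠ ∞ ∧ ∀ w, ∫⁻ z, ‖g z * (z - w)⁻¹‖ₑ ≤ C := by
  obtain ⟨R, hR⟩ := hgc.isCompact.isBounded.subset_ball (0 : ℂ)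
  obtain ⟨M, hM⟩ := hg.bounded_above_of_compact_support hgc
  set R' := max R 1 with hR'
  have hR'pos : 0 < R' := by positivity
  have hbound : ∀ w : ℂ, ∫⁻ z, ‖g z * (z - w)⁻¹‖ₑ ≤
      ENNReal.ofReal M * ENNReal.ofReal (3 * π * R') := by
    intro w
    calc ∫⁻ z, ‖g z * (z - w)⁻¹‖ₑ
        ≤ ∫⁻ z, (Metric.ball (0:ℂ) R').indicator
            (fun z => ENNReal.ofReal M * ‖z - w‖ₑ⁻¹) z := by
          refine lintegral_mono (fun z => ?_)
          by_cases hz : z ∈ Metric.ball (0:ℂ) R'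
          · rw [indicator_of_mem hz, enorm_mul]
            gcongr
            · rw [← ofReal_norm]; exact ENNReal.ofReal_le_ofReal (hM z)
            · by_cases h0 : z - w = 0
              · rw [h0]; simp
              · exact (enorm_inv h0).le
          · have : g z = 0 := by
              apply image_eq_zero_of_notMem_tsupport
              intro h
              exact hz (Metric.ball_subset_ball (le_max_left _ _) (hR h))
            rw [this]; simp
      _ = ENNReal.ofReal M * ∫⁻ z in Metric.ball (0:ℂ) R', ‖z - w‖ₑ⁻¹ := by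
          rw [lintegral_indicator Metric.isOpen_ball.measurableSet, lintegral_const_mul]
          exact ((measurable_id.sub measurable_const).enorm).inv
      _ ≤ _ := by gcongr; exact lintegral_ball_le 0 w hR'pos
  have hne : ENNReal.ofReal M * ENNReal.ofReal (3 * π * R') ≠ ∞ :=
    ENNReal.mul_ne_top ENNReal.ofReal_ne_top ENNReal.ofReal_ne_top
  refine ⟨⟨?_, ?_⟩, _, hne, hbound⟩
  · exact (hg.measurable.mul (measurable_id.sub measurable_const).inv).aestronglyMeasurable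
  · exact lt_of_le_of_lt (hbound w) (lt_top_iff_ne_top.2 hne)

/-- `2 ∂̄ ψ`. -/
noncomputable def dbar (ψ : ℂ → ℝ) (z : ℂ) : ℂ :=
  (fderiv ℝ ψ z 1 : ℂ) + Complex.I * (fderiv ℝ ψ z Complex.I : ℂ)

variable {ψ : ℂ → ℝ} (hψ : ContDiff ℝ 1 ψ) (hc : HasCompactSupport ψ)

include hψ in
lemma continuous_dbar : Continuous (dbar ψ) := by
  have h := fderiv_cont hψ
  unfold dbar
  have h1 : Continuous (fun z => fderiv ℝ ψ z 1) := h.clm_apply continuous_const
  have h2 : Continuous (fun z => fderiv ℝ ψ z Complex.I) := h.clm_apply continuous_const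
  fun_prop

include hc in
lemma hasCompactSupport_dbar : HasCompactSupport (dbar ψ) := by
  refine (hc.fderiv ℝ).mono ?_
  intro z hz
  by_contra h
  apply hz
  have h' : fderiv ℝ ψ z = 0 := by simpa using h
  simp [dbar, h']

lemma dbar_mul_inv (z : ℂ) :
    dbar ψ z * z⁻¹ = ((fderiv ℝ ψ z z / ‖z‖ ^ 2 : ℝ) : ℂ) +
      ((fderiv ℝ ψ z (Complex.I * z) / ‖z‖ ^ 2 : ℝ) : ℂ) * Complex.I := by
  have h1 : fderiv ℝ ψ z z = z.re * fderiv ℝ ψ z 1 + z.im * fderiv ℝ ψ z Complex.I := by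
    have : z = z.re • (1:ℂ) + z.im • Complex.I := by
      simp [Complex.re_add_im]
    conv_lhs => rw [this]
    rw [map_add, map_smul, map_smul, smul_eq_mul, smul_eq_mul]
    rw [← this]
  have h2 : fderiv ℝ ψ z (Complex.I * z) =
      z.re * fderiv ℝ ψ z Complex.I - z.im * fderiv ℝ ψ z 1 := by
    have : Complex.I * z = z.re • Complex.I - z.im • (1:ℂ) := by
      apply Complex.ext <;> simp
    rw [this, map_sub, map_smul, map_smul, smul_eq_mul, smul_eq_mul]
  rw [h1, h2, ← Complex.normSq_eq_norm_sq]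
  apply Complex.ext
  · simp [dbar, Complex.inv_re, Complex.inv_im]
    ring
  · simp [dbar, Complex.inv_re, Complex.inv_im]
    ring

include hψ hc in
lemma dbar_zero : ∫ z, dbar ψ z * z⁻¹ = -(2 * π * ψ 0 : ℝ) := by
  have hint : Integrable (fun z => dbar ψ z * z⁻¹) := by
    have := (integrable_mul_inv (continuous_dbar hψ) (hasCompactSupport_dbar hc) 0).1
    simpa using this
  apply Complex.ext
  · have h1 : (∫ z, dbar ψ z * z⁻¹).re = ∫ z, (dbar ψ z * z⁻¹).re := (integral_re hint).symm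
    rw [h1]
    have h2 : ∀ z, (dbar ψ z * z⁻¹).re = fderiv ℝ ψ z z / ‖z‖ ^ 2 := by
      intro z; rw [dbar_mul_inv]; simp only [Complex.add_re, Complex.ofReal_re, Complex.mul_re,
        Complex.ofReal_im, Complex.I_re, Complex.I_im]; ring
    simp only [h2]
    rw [integral_radial hψ hc]
    simp
  · have h1 : (∫ z, dbar ψ z * z⁻¹).im = ∫ z, (dbar ψ z * z⁻¹).im := (integral_im hint).symm
    rw [h1]
    have h2 : ∀ z, (dbar ψ z * z⁻¹).im = fderiv ℝ ψ z (Complex.I * z) / ‖z‖ ^ 2 := by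
      intro z; rw [dbar_mul_inv]; simp only [Complex.add_im, Complex.ofReal_re, Complex.mul_im,
        Complex.ofReal_im, Complex.I_re, Complex.I_im]; ring
    simp only [h2]
    rw [integral_angular hψ hc]
    simp

include hψ hc in
lemma dbar_point (w : ℂ) : ∫ z, dbar ψ z * (z - w)⁻¹ = -(2 * π * ψ w : ℝ) := by
  have h1 : ∫ z, dbar ψ z * (z - w)⁻¹ = ∫ z, dbar ψ (z + w) * z⁻¹ := by
    rw [← integral_add_right_eq_self (fun z => dbar ψ z * (z - w)⁻¹) w]
    simp
  rw [h1]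
  have h2 : ∀ z, dbar ψ (z + w) = dbar (fun z => ψ (z + w)) z := by
    intro z
    unfold dbar
    rw [fderiv_comp_add_right]
  simp only [h2]
  have h3 : ContDiff ℝ 1 (fun z => ψ (z + w)) := hψ.comp (contDiff_id.add contDiff_const)
  have h4 : HasCompactSupport (fun z => ψ (z + w)) := by
    have := hc.comp_homeomorph (Homeomorph.addRight w)
    exact this
  rw [dbar_zero h3 h4]
  simp

end point

section law

variable {t : ℕ → ℝ} (ht : Scale t) (x₀ : ℂ)

include ht

lemma integrable_prod_ker {g : ℂ → ℂ} (hg : Continuous g) (hgc : HasCompactSupport g) :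
    Integrable (Function.uncurry fun (z : ℂ) (ω : Seq) => g z * (z - pt x₀ t ω)⁻¹)
      (volume.prod Pm) := by
  have hm : Measurable (Function.uncurry fun (z : ℂ) (ω : Seq) => g z * (z - pt x₀ t ω)⁻¹) :=
    (hg.measurable.comp measurable_fst).mul (measurable_ker ht x₀)
  refine ⟨hm.aestronglyMeasurable, ?_⟩
  obtain ⟨C, hC, hb⟩ := (integrable_mul_inv hg hgc 0).2
  unfold HasFiniteIntegral
  have h1 : ∫⁻ p, ‖Function.uncurry (fun (z : ℂ) (ω : Seq) => g z * (z - pt x₀ t ω)⁻¹) p‖ₑ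
      ∂(volume.prod Pm) = ∫⁻ ω, (∫⁻ z, ‖g z * (z - pt x₀ t ω)⁻¹‖ₑ) ∂Pm :=
    lintegral_prod_symm' _ hm.enorm
  rw [h1]
  have h2 : ∫⁻ ω, (∫⁻ z, ‖g z * (z - pt x₀ t ω)⁻¹‖ₑ) ∂Pm ≤ ∫⁻ _ : Seq, C ∂Pm :=
    lintegral_mono (fun ω => hb (pt x₀ t ω))
  refine lt_of_le_of_lt h2 ?_
  rw [lintegral_const, measure_univ, mul_one]
  exact lt_top_iff_ne_top.2 hC

/-- `∫ g · cau = ∫ (∫ g(z)/(z-pt) dz) dP`. -/
lemma integral_mul_cau {g : ℂ → ℂ} (hg : Continuous g) (hgc : HasCompactSupport g) :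
    ∫ z, g z * cau x₀ t z = ∫ ω, (∫ z, g z * (z - pt x₀ t ω)⁻¹) ∂Pm := by
  rw [← integral_integral_swap (integrable_prod_ker ht x₀ hg hgc)]
  congr 1
  ext z
  rw [integral_const_mul]
  rfl

lemma integrable_mul_cau {g : ℂ → ℂ} (hg : Continuous g) (hgc : HasCompactSupport g) :
    Integrable (fun z => g z * cau x₀ t z) := by
  have := (integrable_prod_ker ht x₀ hg hgc).integral_prod_left
  refine this.congr (Eventually.of_forall fun z => ?_)
  simp only [Function.uncurry]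
  rw [integral_const_mul]
  rfl

theorem dbar_cau {ψ : ℂ → ℝ} (hψ : ContDiff ℝ 1 ψ) (hc : HasCompactSupport ψ) :
    ∫ z, dbar ψ z * cau x₀ t z = -((2 * π * ∫ ω, ψ (pt x₀ t ω) ∂Pm : ℝ) : ℂ) := by
  rw [integral_mul_cau ht x₀ (continuous_dbar hψ) (hasCompactSupport_dbar hc)]
  simp only [dbar_point hψ hc]
  rw [integral_neg, integral_complex_ofReal, integral_const_mul]

lemma measurable_cau : StronglyMeasurable (cau x₀ t) := by
  exact StronglyMeasurable.integral_prod_right (f := fun (z : ℂ) (ω : Seq) => (z - pt x₀ t ω)⁻¹)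
    (measurable_ker ht x₀).stronglyMeasurable (ν := Pm)

lemma lintegral_cau_ball (x : ℂ) {r : ℝ} (hr : 0 < r) :
    ∫⁻ z in Metric.ball x r, ‖cau x₀ t z‖ₑ ≤ ENNReal.ofReal (3 * π * r) := by
  calc ∫⁻ z in Metric.ball x r, ‖cau x₀ t z‖ₑ
      ≤ ∫⁻ z in Metric.ball x r, ∫⁻ ω, ‖(z - pt x₀ t ω)⁻¹‖ₑ ∂Pm :=
        lintegral_mono (fun z => enorm_integral_le_lintegral_enorm _)
    _ = ∫⁻ ω, (∫⁻ z in Metric.ball x r, ‖(z - pt x₀ t ω)⁻¹‖ₑ) ∂Pm :=
        lintegral_lintegral_swap (measurable_ker ht x₀).enorm.aemeasurable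
    _ ≤ ∫⁻ _ : Seq, ENNReal.ofReal (3 * π * r) ∂Pm := by
        refine lintegral_mono (fun ω => ?_)
        refine le_trans (lintegral_mono fun z => ?_) (lintegral_ball_le x (pt x₀ t ω) hr)
        by_cases h0 : z - pt x₀ t ω = 0
        · rw [h0]; simp
        · exact (enorm_inv h0).le
    _ = _ := by simp

lemma integrableOn_cau_ball (x : ℂ) (r : ℝ) : IntegrableOn (cau x₀ t) (Metric.ball x r) := by
  rcases le_or_gt r 0 with h | h
  · rw [Metric.ball_eq_empty.2 h]; exact integrableOn_empty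
  · exact ⟨(measurable_cau ht x₀).aestronglyMeasurable,
      lt_of_le_of_lt (lintegral_cau_ball ht x₀ x h) ENNReal.ofReal_lt_top⟩

end law

end Pool.Agent.Lib.MP_d02974_an
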