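import Mathlib

/-!
Functions of bounded deviatoric deformation: the deviatoric strain as a matrix-valued measure, the
approximate discontinuity set, the jump set and quasi-continuity.
-/

namespace Pool.Agent.Lib.MP_d02974_an

open MeasureTheory Filter Topology Set

/-- The space `ℝⁿ`. -/
abbrev Sp (n : ℕ) := EuclideanSpace ℝ (Fin n)

/-- Real `n × n` matrices, as the Euclidean space of their entries (Frobenius norm). -/
abbrev Mat (n : ℕ) := EuclideanSpace ℝ (Fin n × Fin n)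

/-- The partial derivative `∂_j φ (x)`. -/
noncomputable def pd {n : ℕ} (φ : Sp n → ℝ) (j : Fin n) (x : Sp n) : ℝ :=
  fderiv ℝ φ x (EuclideanSpace.single j 1)

/-- Test functions on `Ω`: smooth, with compact support contained in `Ω`. -/
def IsTest {n : ℕ} (Ω : Set (Sp n)) (φ : Sp n → ℝ) : Prop :=
  ContDiff ℝ (⊤ : ℕ∞) φ ∧ HasCompactSupport φ ∧ tsupport φ ⊆ Ω

/-- The matrix-valued measure `D` is finite, is concentrated on `Ω`, and is the distributional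
deviatoric (trace-free symmetric) gradient of `u` on `Ω`:
`⟨D_ij, φ⟩ = - ∫_Ω ( (u_i ∂_j φ + u_j ∂_i φ)/2 - (δ_ij/n) ∑_k u_k ∂_k φ ) dx`. -/
structure IsDevStrain {n : ℕ} (Ω : Set (Sp n)) (u : Sp n → Sp n)
    (D : VectorMeasure (Sp n) (Mat n)) : Prop where
  finite : D.variation univ < ⊤
  outside : D.variation Ωᶜ = 0
  weak : ∀ φ : Sp n → ℝ, IsTest Ω φ → ∀ i j : Fin n,
    (VectorMeasure.integral D φ (ContinuousLinearMap.lsmul ℝ ℝ)) (i, j) =
      - ∫ x in Ω, ((u x i * pd φ j x + u x j * pd φ i x) / 2 -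
        (if i = j then (∑ k, u x k * pd φ k x) / n else 0))

/-- The approximate discontinuity set `S_u`. -/
def approxDisc {n : ℕ} (Ω : Set (Sp n)) (u : Sp n → Sp n) : Set (Sp n) :=
  {x | x ∈ Ω ∧ ¬ ∃ z : Sp n,
    Tendsto (fun r : ℝ => ⨍ y in Metric.ball x r, ‖u y - z‖) (𝓝[>] 0) (𝓝 0)}

/-- The jump set `J_u`. -/
def jumpSet {n : ℕ} (Ω : Set (Sp n)) (u : Sp n → Sp n) : Set (Sp n) :=
  {x | x ∈ Ω ∧ ∃ a b ν : Sp n, a ≠ b ∧ ‖ν‖ = 1 ∧
    Tendsto (fun r : ℝ => ⨍ y in {y | y ∈ Metric.ball x r ∧ 0 < inner ℝ (y - x) ν}, ‖u y - a‖)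
      (𝓝[>] 0) (𝓝 0) ∧
    Tendsto (fun r : ℝ => ⨍ y in {y | y ∈ Metric.ball x r ∧ inner ℝ (y - x) ν < 0}, ‖u y - b‖)
      (𝓝[>] 0) (𝓝 0)}

/-- Quasi-continuity of `u` at `x`: the mean oscillation over `B_r(x)` tends to zero. -/
def QuasiContAt {n : ℕ} (u : Sp n → Sp n) (x : Sp n) : Prop :=
  Tendsto (fun r : ℝ => ⨍ y in Metric.ball x r, ‖u y - ⨍ w in Metric.ball x r, u w‖)
    (𝓝[>] 0) (𝓝 0)

end Pool.Agent.Lib.MP_d02974_an
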