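import Mathlib

/-!
The Cantor dust: digit sequences, coordinates, separation of points.
-/

namespace Pool.Agent.Lib.MP_d02974_an

open MeasureTheory Filter Topology Set
open scoped ENNReal Real

/-- Sequences of corners of the square. -/
abbrev Seq := ℕ → Bool × Bool

noncomputable def sg (b : Bool) : ℝ := if b then 1 else -1

lemma abs_sg (b : Bool) : |sg b| = 1 := by cases b <;> simp [sg]

lemma abs_sg_sub (b b' : Bool) : |sg b - sg b'| ≤ 2 := by
  cases b <;> cases b' <;> norm_num [sg]

/-- A sequence of scales: positive, shrinking at least by `3` and at most by `4` at each step, with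
`4^{-k} / t_k → 0`. -/
structure Scale (t : ℕ → ℝ) : Prop where
  pos : ∀ k, 0 < t k
  third : ∀ k, t (k + 1) ≤ t k / 3
  quarter : ∀ k, t k ≤ 4 * t (k + 1)
  dens : Tendsto (fun k => (1 / 4 : ℝ) ^ k / t k) atTop (𝓝 0)

namespace Scale

variable {t : ℕ → ℝ} (ht : Scale t)

include ht

lemma shift (k i : ℕ) : t (k + i) ≤ t k * (1 / 3) ^ i := by
  induction i with
  | zero => simp
  | succ i ih =>
    have := ht.third (k + i)
    rw [← add_assoc]
    calc t (k + i + 1) ≤ t (k + i) / 3 := this
      _ ≤ (t k * (1 / 3) ^ i) / 3 := by gcongr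
      _ = t k * (1 / 3) ^ (i + 1) := by rw [pow_succ]; ring

lemma summable_shift (k : ℕ) : Summable (fun i => t (k + i)) := by
  refine Summable.of_nonneg_of_le (fun i => (ht.pos _).le) (ht.shift k) ?_
  exact (summable_geometric_of_lt_one (by norm_num) (by norm_num)).mul_left _

lemma summable : Summable t := by simpa using ht.summable_shift 0

lemma tsum_shift_le (k : ℕ) : ∑' i, t (k + i) ≤ 3 / 2 * t k := by
  have h := (ht.summable_shift k).tsum_le_tsum (ht.shift k)
    ((summable_geometric_of_lt_one (by norm_num : (0:ℝ) ≤ 1/3) (by norm_num)).mul_left _)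
  refine h.trans (le_of_eq ?_)
  rw [tsum_mul_left, tsum_geometric_of_lt_one (by norm_num) (by norm_num)]
  norm_num
  ring

lemma anti : Antitone t := by
  refine antitone_nat_of_succ_le (fun k => (ht.third k).trans ?_)
  have := ht.pos k
  linarith

lemma third' {j k : ℕ} (h : j < k) : t k ≤ t j / 3 :=
  (ht.anti h).trans (ht.third j)

lemma tendsto_zero : Tendsto t atTop (𝓝 0) := ht.summable.tendsto_atTop_zero

end Scale

/-- `∑ t_k (±1)`. -/
noncomputable def coord (t : ℕ → ℝ) (b : ℕ → Bool) : ℝ := ∑' k, t k * sg (b k)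

section

variable {t : ℕ → ℝ} (ht : Scale t)

include ht

lemma summable_coord (b : ℕ → Bool) : Summable (fun k => t k * sg (b k)) := by
  refine Summable.of_norm_bounded (g := t) ht.summable (fun k => ?_)
  rw [norm_mul, Real.norm_eq_abs, Real.norm_eq_abs, abs_sg, mul_one, abs_of_pos (ht.pos k)]

lemma coord_sub (b b' : ℕ → Bool) :
    coord t b - coord t b' = ∑' k, t k * (sg (b k) - sg (b' k)) := by
  unfold coord
  rw [← (summable_coord ht b).tsum_sub (summable_coord ht b')]
  congr 1
  ext k
  ring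

lemma summable_diff (b b' : ℕ → Bool) : Summable (fun k => t k * (sg (b k) - sg (b' k))) := by
  have := (summable_coord ht b).sub (summable_coord ht b')
  refine this.congr (fun k => ?_)
  ring

lemma abs_tail_le (b b' : ℕ → Bool) (k : ℕ) :
    |∑' i, t (i + k) * (sg (b (i + k)) - sg (b' (i + k)))| ≤ 3 * t k := by
  have hs : Summable (fun i => 2 * t (k + i)) := (ht.summable_shift k).mul_left 2
  have hb : ∀ i, ‖t (i + k) * (sg (b (i + k)) - sg (b' (i + k)))‖ ≤ 2 * t (k + i) := by
    intro i
    rw [norm_mul, Real.norm_eq_abs, Real.norm_eq_abs, abs_of_pos (ht.pos _), add_comm i k]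
    have := abs_sg_sub (b (k + i)) (b' (k + i))
    have h2 := ht.pos (k + i)
    nlinarith
  have h1 := tsum_of_norm_bounded hs.hasSum hb
  rw [Real.norm_eq_abs] at h1
  refine h1.trans ?_
  rw [tsum_mul_left]
  have := ht.tsum_shift_le k
  linarith

lemma coord_sub_eq_tail {b b' : ℕ → Bool} {k : ℕ} (h : ∀ i < k, b i = b' i) :
    coord t b - coord t b' = ∑' i, t (i + k) * (sg (b (i + k)) - sg (b' (i + k))) := by
  rw [coord_sub ht, ← (summable_diff ht b b').sum_add_tsum_nat_add k]
  rw [Finset.sum_eq_zero, zero_add]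
  intro i hi
  rw [h i (Finset.mem_range.1 hi), sub_self, mul_zero]

lemma coord_close {b b' : ℕ → Bool} {k : ℕ} (h : ∀ i < k, b i = b' i) :
    |coord t b - coord t b'| ≤ 3 * t k := by
  rw [coord_sub_eq_tail ht h]
  exact abs_tail_le ht b b' k

lemma coord_sep {b b' : ℕ → Bool} {k : ℕ} (h : ∀ i < k, b i = b' i)
    (h1 : b k = true) (h2 : b' k = false) :
    t k ≤ coord t b - coord t b' ∧ coord t b - coord t b' ≤ 3 * t k := by
  rw [coord_sub_eq_tail ht h]
  have hs : Summable (fun i => t (i + k) * (sg (b (i + k)) - sg (b' (i + k)))) :=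
    (summable_nat_add_iff k).2 (summable_diff ht b b')
  rw [hs.tsum_eq_zero_add]
  have h3 := abs_tail_le ht b b' (k + 1)
  have h4 : (fun i => t (i + 1 + k) * (sg (b (i + 1 + k)) - sg (b' (i + 1 + k)))) =
      fun i => t (i + (k + 1)) * (sg (b (i + (k + 1))) - sg (b' (i + (k + 1)))) := by
    ext i
    have : i + 1 + k = i + (k + 1) := by ring
    rw [this]
  rw [h4]
  have h5 := ht.third k
  have h6 := abs_le.1 h3
  have h7 : sg true - sg false = 2 := by norm_num [sg]
  simp only [zero_add, h1, h2, h7]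
  constructor <;> linarith [h6.1, h6.2]

lemma coord_abs (b : ℕ → Bool) : |coord t b| ≤ 3 / 2 * t 0 := by
  have h1 : ∀ k, ‖t k * sg (b k)‖ ≤ t k := by
    intro k
    rw [norm_mul, Real.norm_eq_abs, Real.norm_eq_abs, abs_sg, mul_one, abs_of_pos (ht.pos k)]
  have h2 := tsum_of_norm_bounded ht.summable.hasSum h1
  have h3 := ht.tsum_shift_le 0
  simp only [zero_add] at h3
  exact h2.trans h3

lemma continuous_coord : Continuous (fun b : ℕ → Bool => coord t b) := by
  refine continuous_tsum (fun k => ?_) ht.summable (fun k b => ?_)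
  · have : Continuous sg := continuous_of_discreteTopology
    exact continuous_const.mul (this.comp (continuous_apply k))
  · rw [norm_mul, Real.norm_eq_abs, Real.norm_eq_abs, abs_sg, mul_one, abs_of_pos (ht.pos k)]

end

/-- The point of the dust with digit sequence `ω`. -/
noncomputable def pt (x₀ : ℂ) (t : ℕ → ℝ) (ω : Seq) : ℂ :=
  x₀ + ((coord t (fun k => (ω k).1) : ℝ) + (coord t (fun k => (ω k).2) : ℝ) * Complex.I)

lemma pt_sub_re (x₀ : ℂ) (t : ℕ → ℝ) (ω ω' : Seq) :
    (pt x₀ t ω - pt x₀ t ω').re =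
      coord t (fun k => (ω k).1) - coord t (fun k => (ω' k).1) := by
  simp [pt]

lemma pt_sub_im (x₀ : ℂ) (t : ℕ → ℝ) (ω ω' : Seq) :
    (pt x₀ t ω - pt x₀ t ω').im =
      coord t (fun k => (ω k).2) - coord t (fun k => (ω' k).2) := by
  simp [pt]

section

variable {t : ℕ → ℝ} (ht : Scale t) (x₀ : ℂ)

include ht

lemma continuous_pt : Continuous (pt x₀ t) := by
  unfold pt
  have h1 : Continuous (fun ω : Seq => coord t (fun k => (ω k).1)) :=
    (continuous_coord ht).comp (continuous_pi fun k => continuous_fst.comp (continuous_apply k))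
  have h2 : Continuous (fun ω : Seq => coord t (fun k => (ω k).2)) :=
    (continuous_coord ht).comp (continuous_pi fun k => continuous_snd.comp (continuous_apply k))
  fun_prop

lemma pt_dist_center (ω : Seq) : ‖pt x₀ t ω - x₀‖ ≤ 3 * t 0 := by
  have h : pt x₀ t ω - x₀ =
      ((coord t (fun k => (ω k).1) : ℝ) + (coord t (fun k => (ω k).2) : ℝ) * Complex.I) := by
    unfold pt; ring
  rw [h]
  have h1 := coord_abs ht (fun k => (ω k).1)
  have h2 := coord_abs ht (fun k => (ω k).2)
  refine (norm_add_le _ _).trans ?_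
  rw [norm_mul, Complex.norm_I, mul_one, Complex.norm_real, Complex.norm_real,
    Real.norm_eq_abs, Real.norm_eq_abs]
  linarith

/-- Two sequences agreeing below `k`. -/
lemma pt_close {ω ω' : Seq} {k : ℕ} (h : ∀ i < k, ω i = ω' i) :
    ‖pt x₀ t ω - pt x₀ t ω'‖ ≤ 6 * t k := by
  have h1 : |(pt x₀ t ω - pt x₀ t ω').re| ≤ 3 * t k := by
    rw [pt_sub_re]; exact coord_close ht (fun i hi => by simp only [h i hi])
  have h2 : |(pt x₀ t ω - pt x₀ t ω').im| ≤ 3 * t k := by
    rw [pt_sub_im]; exact coord_close ht (fun i hi => by simp only [h i hi])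
  exact (Complex.norm_le_abs_re_add_abs_im _).trans (by linarith)

/-- Two sequences with first difference at `k` give points at distance at least `t_k`. -/
lemma pt_sep {ω ω' : Seq} {k : ℕ} (h : ∀ i < k, ω i = ω' i) (hk : ω k ≠ ω' k) :
    t k ≤ ‖pt x₀ t ω - pt x₀ t ω'‖ := by
  by_cases h1 : (ω k).1 = (ω' k).1
  · have h2 : (ω k).2 ≠ (ω' k).2 := fun h2 => hk (Prod.ext h1 h2)
    refine le_trans ?_ (Complex.abs_im_le_norm _)
    rw [pt_sub_im]
    cases h3 : (ω k).2 <;> cases h4 : (ω' k).2
    · exact absurd (h3.trans h4.symm) h2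
    · have := coord_sep ht (b := fun k => (ω' k).2) (b' := fun k => (ω k).2)
        (fun i hi => by simp only [h i hi]) h4 h3
      rw [abs_sub_comm]
      exact this.1.trans (le_abs_self _)
    · have := coord_sep ht (b := fun k => (ω k).2) (b' := fun k => (ω' k).2)
        (fun i hi => by simp only [h i hi]) h3 h4
      exact this.1.trans (le_abs_self _)
    · exact absurd (h3.trans h4.symm) h2
  · refine le_trans ?_ (Complex.abs_re_le_norm _)
    rw [pt_sub_re]
    cases h3 : (ω k).1 <;> cases h4 : (ω' k).1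
    · exact absurd (h3.trans h4.symm) h1
    · have := coord_sep ht (b := fun k => (ω' k).1) (b' := fun k => (ω k).1)
        (fun i hi => by simp only [h i hi]) h4 h3
      rw [abs_sub_comm]
      exact this.1.trans (le_abs_self _)
    · have := coord_sep ht (b := fun k => (ω k).1) (b' := fun k => (ω' k).1)
        (fun i hi => by simp only [h i hi]) h3 h4
      exact this.1.trans (le_abs_self _)
    · exact absurd (h3.trans h4.symm) h1

omit ht in
/-- If `ω'` does not agree with `ω` below `k`, there is a first difference `j < k`. -/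
lemma exists_first_diff {ω ω' : Seq} {k : ℕ} (h : ¬ ∀ i < k, ω' i = ω i) :
    ∃ j < k, (∀ i < j, ω' i = ω i) ∧ ω' j ≠ ω j := by
  classical
  push Not at h
  obtain ⟨i, hi, hne⟩ := h
  have hex : ∃ i, ω' i ≠ ω i := ⟨i, hne⟩
  refine ⟨Nat.find hex, lt_of_le_of_lt (Nat.find_min' hex hne) hi, fun j hj => ?_,
    Nat.find_spec hex⟩
  by_contra hc
  exact Nat.find_min hex hj hc

lemma pt_injective : Function.Injective (pt x₀ t) := by
  intro ω ω' h
  by_contra hne
  have : ∃ k, ¬ ∀ i < k, ω' i = ω i := by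
    by_contra hc
    push Not at hc
    exact hne (funext fun i => (hc (i + 1) i (Nat.lt_succ_self i)).symm)
  obtain ⟨k, hk⟩ := this
  obtain ⟨j, -, hj1, hj2⟩ := exists_first_diff hk
  have := pt_sep ht x₀ (fun i hi => (hj1 i hi).symm) (Ne.symm hj2)
  rw [h, sub_self, norm_zero] at this
  exact absurd (ht.pos j) (not_lt.2 this)

end

end Pool.Agent.Lib.MP_d02974_an
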