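import Mathlib

/-!
Radial and angular derivatives integrated against `1/|z|^2` in the plane:
the two real identities behind `∂̄ (1/z) = π δ`.
-/

namespace Pool.Agent.Lib.MP_d02974_an

open MeasureTheory Filter Topology Set
open scoped ENNReal Real

/-- The point with polar coordinates `(r, θ)`. -/
noncomputable def pol (r θ : ℝ) : ℂ := r * (Real.cos θ + Real.sin θ * Complex.I)

noncomputable def uth (θ : ℝ) : ℂ := (Real.cos θ + Real.sin θ * Complex.I)

lemma pol_eq (r θ : ℝ) : pol r θ = r • uth θ := by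
  rw [Complex.real_smul]; rfl

lemma norm_uth (θ : ℝ) : ‖uth θ‖ = 1 := by
  have : uth θ = Complex.exp (θ * Complex.I) := by
    simp [uth, Complex.exp_mul_I]
  rw [this, Complex.norm_exp_ofReal_mul_I]

lemma norm_pol {r : ℝ} (hr : 0 ≤ r) (θ : ℝ) : ‖pol r θ‖ = r := by
  rw [pol_eq, norm_smul, norm_uth, mul_one, Real.norm_of_nonneg hr]

lemma continuous_uth : Continuous uth := by
  unfold uth; fun_prop

lemma continuous_pol : Continuous (fun p : ℝ × ℝ => pol p.1 p.2) := by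
  unfold pol; fun_prop

lemma hasDerivAt_pol_r (r θ : ℝ) : HasDerivAt (fun r => pol r θ) (uth θ) r := by
  have h : (fun r => pol r θ) = fun r : ℝ => r • uth θ := by
    ext r; exact pol_eq r θ
  rw [h]
  simpa using (hasDerivAt_id r).smul_const (uth θ)

lemma hasDerivAt_pol_θ (r θ : ℝ) :
    HasDerivAt (fun θ => pol r θ) (r • (Complex.I * uth θ)) θ := by
  have h1 : HasDerivAt (fun θ : ℝ => (Real.cos θ : ℂ)) ((-Real.sin θ : ℝ) : ℂ) θ :=
    (Real.hasDerivAt_cos θ).ofReal_comp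
  have h2 : HasDerivAt (fun θ : ℝ => (Real.sin θ : ℂ)) ((Real.cos θ : ℝ) : ℂ) θ :=
    (Real.hasDerivAt_sin θ).ofReal_comp
  have h3 := (h1.add (h2.mul_const Complex.I)).const_mul (r : ℂ)
  have h4 : (fun θ => pol r θ) =
      fun θ : ℝ => (r : ℂ) * ((Real.cos θ : ℂ) + (Real.sin θ : ℂ) * Complex.I) := rfl
  rw [h4]
  have h5 : (r : ℂ) * (((-Real.sin θ : ℝ) : ℂ) + ((Real.cos θ : ℝ) : ℂ) * Complex.I) =
      r • (Complex.I * uth θ) := by
    rw [Complex.real_smul]
    unfold uth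
    have := Complex.I_sq
    push_cast
    linear_combination (-(r : ℂ) * Complex.sin θ) * this
  rw [← h5]
  exact h3

section

variable {φ : ℂ → ℝ} (hφ : ContDiff ℝ 1 φ) (hc : HasCompactSupport φ)

include hφ in
lemma fderiv_cont : Continuous (fderiv ℝ φ) := hφ.continuous_fderiv (by norm_num)

include hφ in
lemma continuous_dr : Continuous (fun p : ℝ × ℝ => fderiv ℝ φ (pol p.1 p.2) (uth p.2)) := by
  have h := fderiv_cont hφ
  exact (h.comp continuous_pol).clm_apply (continuous_uth.comp continuous_snd)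

include hφ in
lemma continuous_dθ :
    Continuous (fun p : ℝ × ℝ => fderiv ℝ φ (pol p.1 p.2) (Complex.I * uth p.2)) := by
  have h := fderiv_cont hφ
  exact (h.comp continuous_pol).clm_apply
    (continuous_const.mul (continuous_uth.comp continuous_snd))

include hc in
lemma exists_R : ∃ R : ℝ, 0 < R ∧ ∀ z : ℂ, R ≤ ‖z‖ → φ z = 0 ∧ fderiv ℝ φ z = 0 := by
  obtain ⟨R, hR⟩ := hc.isCompact.isBounded.subset_ball (0 : ℂ)
  refine ⟨max R 1, by positivity, fun z hz => ?_⟩
  have hz' : z ∉ tsupport φ := by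
    intro h
    have := hR h
    rw [Metric.mem_ball, dist_zero_right] at this
    have := le_max_left R 1
    linarith
  refine ⟨image_eq_zero_of_notMem_tsupport hz', ?_⟩
  have : z ∉ Function.support (fderiv ℝ φ) := fun h => hz' (support_fderiv_subset ℝ h)
  simpa using this

lemma integrable_of_cont {g : ℝ × ℝ → ℝ} (hg : Continuous g)
    (hg0 : ∃ R : ℝ, 0 < R ∧ ∀ p : ℝ × ℝ, R ≤ p.1 → g p = 0) :
    IntegrableOn g (Ioi (0:ℝ) ×ˢ Ioo (-π) π) := by
  obtain ⟨R, hR, h0⟩ := hg0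
  have h1 : IntegrableOn g (Icc (0:ℝ) R ×ˢ Icc (-π) π) :=
    hg.continuousOn.integrableOn_compact (isCompact_Icc.prod isCompact_Icc)
  have h2 : IntegrableOn g ((Icc (0:ℝ) R ×ˢ Icc (-π) π) ∪
      (Ioi (R:ℝ) ×ˢ Ioo (-π) π)) := by
    refine h1.union ?_
    refine IntegrableOn.congr_fun (f := fun _ => (0:ℝ)) integrableOn_zero ?_
      (measurableSet_Ioi.prod measurableSet_Ioo)
    intro p hp
    exact (h0 p (le_of_lt hp.1)).symm
  refine h2.mono_set ?_
  rintro ⟨r, θ⟩ ⟨hr, hθ⟩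
  simp only [mem_Ioi] at hr
  by_cases h : r ≤ R
  · left; exact ⟨⟨hr.le, h⟩, ⟨hθ.1.le, hθ.2.le⟩⟩
  · right; exact ⟨not_le.1 h, hθ⟩

include hφ hc in
lemma integrableOn_dr :
    IntegrableOn (fun p : ℝ × ℝ => fderiv ℝ φ (pol p.1 p.2) (uth p.2))
      (Ioi (0:ℝ) ×ˢ Ioo (-π) π) := by
  obtain ⟨R, hR, h0⟩ := exists_R hc
  refine integrable_of_cont (continuous_dr hφ) ⟨R, hR, fun p hp => ?_⟩
  have : ‖pol p.1 p.2‖ = p.1 := norm_pol (hR.le.trans hp) _
  rw [(h0 _ (by rw [this]; exact hp)).2]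
  simp

include hφ hc in
lemma integrableOn_dθ :
    IntegrableOn (fun p : ℝ × ℝ => fderiv ℝ φ (pol p.1 p.2) (Complex.I * uth p.2))
      (Ioi (0:ℝ) ×ˢ Ioo (-π) π) := by
  obtain ⟨R, hR, h0⟩ := exists_R hc
  refine integrable_of_cont (continuous_dθ hφ) ⟨R, hR, fun p hp => ?_⟩
  have : ‖pol p.1 p.2‖ = p.1 := norm_pol (hR.le.trans hp) _
  rw [(h0 _ (by rw [this]; exact hp)).2]
  simp

include hφ hc in
lemma radial_inner (θ : ℝ) :
    ∫ r in Ioi (0:ℝ), fderiv ℝ φ (pol r θ) (uth θ) = - φ 0 := by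
  obtain ⟨R, hR, h0⟩ := exists_R hc
  have hderiv : ∀ r : ℝ, HasDerivAt (fun r => φ (pol r θ)) (fderiv ℝ φ (pol r θ) (uth θ)) r := by
    intro r
    have h1 : HasFDerivAt φ (fderiv ℝ φ (pol r θ)) (pol r θ) :=
      (hφ.differentiable (by norm_num) _).hasFDerivAt
    exact h1.comp_hasDerivAt r (hasDerivAt_pol_r r θ)
  have hint : IntegrableOn (fun r => fderiv ℝ φ (pol r θ) (uth θ)) (Ioi (0:ℝ)) := by
    have hcont : Continuous (fun r : ℝ => fderiv ℝ φ (pol r θ) (uth θ)) :=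
      (continuous_dr hφ).comp (by fun_prop : Continuous fun r : ℝ => (r, θ))
    have h1 : IntegrableOn (fun r => fderiv ℝ φ (pol r θ) (uth θ)) (Icc (0:ℝ) R) :=
      hcont.continuousOn.integrableOn_compact isCompact_Icc
    have h2 : IntegrableOn (fun r => fderiv ℝ φ (pol r θ) (uth θ)) (Icc (0:ℝ) R ∪ Ioi R) := by
      refine h1.union ?_
      refine IntegrableOn.congr_fun (f := fun _ => (0:ℝ)) integrableOn_zero ?_ measurableSet_Ioi
      intro r hr
      have : ‖pol r θ‖ = r := norm_pol (hR.le.trans (le_of_lt hr)) _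
      simp only
      rw [(h0 _ (by rw [this]; exact le_of_lt hr)).2]
      simp
    refine h2.mono_set ?_
    intro r hr
    by_cases h : r ≤ R
    · left; exact ⟨le_of_lt hr, h⟩
    · right; exact not_le.1 h
  have hlim : Tendsto (fun r => φ (pol r θ)) atTop (𝓝 0) := by
    refine tendsto_const_nhds.congr' ?_
    filter_upwards [eventually_ge_atTop R] with r hr
    have : ‖pol r θ‖ = r := norm_pol (hR.le.trans hr) _
    exact (h0 _ (by rw [this]; exact hr)).1.symm
  have := integral_Ioi_of_hasDerivAt_of_tendsto (a := 0) (m := 0)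
    (f := fun r => φ (pol r θ)) (f' := fun r => fderiv ℝ φ (pol r θ) (uth θ))
    (hderiv 0).continuousAt.continuousWithinAt (fun r _ => hderiv r) hint hlim
  rw [this]
  simp [pol]

include hφ in
lemma angular_inner {r : ℝ} (hr : 0 < r) :
    ∫ θ in Ioo (-π) π, fderiv ℝ φ (pol r θ) (Complex.I * uth θ) = 0 := by
  have hderiv : ∀ θ : ℝ, HasDerivAt (fun θ => φ (pol r θ))
      (r * fderiv ℝ φ (pol r θ) (Complex.I * uth θ)) θ := by
    intro θ
    have h1 : HasFDerivAt φ (fderiv ℝ φ (pol r θ)) (pol r θ) :=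
      (hφ.differentiable (by norm_num) _).hasFDerivAt
    have := h1.comp_hasDerivAt θ (hasDerivAt_pol_θ r θ)
    rw [map_smul, smul_eq_mul] at this
    exact this
  have hcont : Continuous (fun θ : ℝ => r * fderiv ℝ φ (pol r θ) (Complex.I * uth θ)) :=
    continuous_const.mul ((continuous_dθ hφ).comp (by fun_prop : Continuous fun θ : ℝ => (r, θ)))
  have h1 : ∫ θ in (-π)..π, r * fderiv ℝ φ (pol r θ) (Complex.I * uth θ)
      = φ (pol r π) - φ (pol r (-π)) :=
    intervalIntegral.integral_eq_sub_of_hasDerivAt (fun θ _ => hderiv θ)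
      (hcont.intervalIntegrable _ _)
  have h2 : pol r π = pol r (-π) := by simp [pol]
  rw [h2, sub_self, intervalIntegral.integral_const_mul] at h1
  have h3 : ∫ θ in (-π)..π, fderiv ℝ φ (pol r θ) (Complex.I * uth θ) = 0 := by
    rcases mul_eq_zero.1 h1 with h | h
    · exact absurd h hr.ne'
    · exact h
  rw [intervalIntegral.integral_of_le (by linarith [Real.pi_pos]),
    integral_Ioc_eq_integral_Ioo] at h3
  exact h3

lemma polarCoord_symm_eq (p : ℝ × ℝ) : Complex.polarCoord.symm p = pol p.1 p.2 := by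
  rw [Complex.polarCoord_symm_apply]; rfl

include hφ hc in
/-- `∫ (z · ∇φ)/|z|² = -2π φ(0)`. -/
theorem integral_radial :
    ∫ z : ℂ, fderiv ℝ φ z z / ‖z‖ ^ 2 = -(2 * π * φ 0) := by
  rw [← Complex.integral_comp_polarCoord_symm]
  have h1 : ∫ p in polarCoord.target,
      p.1 • (fderiv ℝ φ (Complex.polarCoord.symm p) (Complex.polarCoord.symm p) /
        ‖Complex.polarCoord.symm p‖ ^ 2) =
      ∫ p in Ioi (0:ℝ) ×ˢ Ioo (-π) π, fderiv ℝ φ (pol p.1 p.2) (uth p.2) := by
    rw [polarCoord_target]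
    refine setIntegral_congr_fun (measurableSet_Ioi.prod measurableSet_Ioo) ?_
    rintro ⟨r, θ⟩ ⟨hr, -⟩
    have hr' : 0 < r := hr
    simp only [polarCoord_symm_eq]
    rw [norm_pol hr'.le]
    nth_rewrite 2 [pol_eq]
    rw [map_smul]
    simp only [smul_eq_mul]
    field_simp
  rw [h1]
  have h2 := integrableOn_dr hφ hc
  rw [Measure.volume_eq_prod] at h2 ⊢
  rw [← setIntegral_prod_swap, setIntegral_prod]
  · simp only [Prod.swap_prod_mk]
    have : ∀ θ : ℝ, ∫ r in Ioi (0:ℝ), fderiv ℝ φ (pol r θ) (uth θ) = - φ 0 :=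
      radial_inner hφ hc
    simp only [this]
    rw [setIntegral_const, Real.volume_real_Ioo_of_le (by linarith [Real.pi_pos] : -π ≤ π),
      smul_eq_mul]
    ring
  · exact h2.swap

include hφ hc in
/-- `∫ (z^⊥ · ∇φ)/|z|² = 0`. -/
theorem integral_angular :
    ∫ z : ℂ, fderiv ℝ φ z (Complex.I * z) / ‖z‖ ^ 2 = 0 := by
  rw [← Complex.integral_comp_polarCoord_symm]
  have h1 : ∫ p in polarCoord.target,
      p.1 • (fderiv ℝ φ (Complex.polarCoord.symm p) (Complex.I * Complex.polarCoord.symm p) /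
        ‖Complex.polarCoord.symm p‖ ^ 2) =
      ∫ p in Ioi (0:ℝ) ×ˢ Ioo (-π) π, fderiv ℝ φ (pol p.1 p.2) (Complex.I * uth p.2) := by
    rw [polarCoord_target]
    refine setIntegral_congr_fun (measurableSet_Ioi.prod measurableSet_Ioo) ?_
    rintro ⟨r, θ⟩ ⟨hr, -⟩
    have hr' : 0 < r := hr
    simp only [polarCoord_symm_eq]
    rw [norm_pol hr'.le]
    nth_rewrite 2 [pol_eq]
    rw [mul_smul_comm, map_smul]
    simp only [smul_eq_mul]
    field_simp
  rw [h1]
  have h2 := integrableOn_dθ hφ hc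
  rw [Measure.volume_eq_prod] at h2 ⊢
  rw [setIntegral_prod _ h2]
  refine (setIntegral_congr_fun (g := fun _ => (0:ℝ)) measurableSet_Ioi ?_).trans (by simp)
  intro r hr
  exact angular_inner hφ hr

end

end Pool.Agent.Lib.MP_d02974_an
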