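import Mathlib

/-!
Vector measures with constant polar, `D = |D| v`: integral of scalar functions.
-/

namespace Pool.Agent.Lib.MP_d02974_an

open MeasureTheory Filter Topology Set ContinuousLinearMap
open scoped ENNReal

variable {X F : Type*} [MeasurableSpace X] [NormedAddCommGroup F] [NormedSpace ℝ F]
  [CompleteSpace F]

lemma integral_of_const_polar {D : VectorMeasure X F} [IsFiniteMeasure D.variation] {v : F}
    (h : ∀ s, MeasurableSet s → D s = (D.variation.real s) • v) {φ : X → ℝ}
    (hφ : Integrable φ D.variation) :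
    VectorMeasure.integral D φ (lsmul ℝ ℝ) = (∫ x, φ x ∂D.variation) • v := by
  refine Integrable.induction (P := fun φ => VectorMeasure.integral D φ (lsmul ℝ ℝ) =
    (∫ x, φ x ∂D.variation) • v) ?_ ?_ ?_ ?_ hφ
  · intro c s hs hμ
    rw [VectorMeasure.integral_eq_setToFun, setToFun_indicator_const _ hs hμ.ne,
      integral_indicator_const _ hs]
    have : (D.transpose (lsmul ℝ ℝ)) s c = c • D s := rfl
    rw [this, h s hs, smul_smul, smul_eq_mul, mul_comm]
  · intro f g _ hf hg h1 h2
    rw [VectorMeasure.integral_add hf hg, h1, h2]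
    have : ∫ x, (f + g) x ∂D.variation = ∫ x, f x ∂D.variation + ∫ x, g x ∂D.variation :=
      integral_add hf hg
    rw [this, add_smul]
  · refine isClosed_eq ?_ ?_
    · exact VectorMeasure.continuous_integral
    · exact (continuous_integral.smul continuous_const)
  · intro f g hfg hf h1
    rw [← VectorMeasure.integral_congr_ae hfg, h1, integral_congr_ae hfg]

/-- The vector measure `s ↦ μ(s) v`. -/
noncomputable def spanMeas (μ : Measure X) [IsFiniteMeasure μ] (v : F) : VectorMeasure X F :=
  μ.toSignedMeasure.mapRange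
    (AddMonoidHomClass.toAddMonoidHom (toSpanSingleton ℝ v : ℝ →L[ℝ] F))
    (toSpanSingleton ℝ v : ℝ →L[ℝ] F).continuous

lemma spanMeas_apply (μ : Measure X) [IsFiniteMeasure μ] (v : F) {s : Set X}
    (hs : MeasurableSet s) : spanMeas μ v s = μ.real s • v := by
  have h : spanMeas μ v s = (toSpanSingleton ℝ v : ℝ →L[ℝ] F) (μ.toSignedMeasure s) := rfl
  rw [h, Measure.toSignedMeasure_apply_measurable hs]
  rfl

lemma variation_spanMeas (μ : Measure X) [IsFiniteMeasure μ] {v : F} (hv : ‖v‖ = 1) :
    (spanMeas μ v).variation = μ := by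
  have hE : ∀ s, MeasurableSet s → ‖spanMeas μ v s‖ₑ = μ s := by
    intro s hs
    rw [spanMeas_apply μ v hs, enorm_smul, ← ofReal_norm v, hv, ENNReal.ofReal_one, mul_one,
      Measure.real, Real.enorm_of_nonneg ENNReal.toReal_nonneg,
      ENNReal.ofReal_toReal (measure_ne_top _ _)]
  apply le_antisymm
  · apply VectorMeasure.variation_le_of_forall_enorm_le (fun s hs => ?_)
    exact (hE s hs).le
  · apply Measure.le_iff.2 (fun s hs => ?_)
    rw [← hE s hs]
    exact VectorMeasure.enorm_measure_le_variation _ _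

lemma integral_spanMeas (μ : Measure X) [hμ : IsFiniteMeasure μ] {v : F} (hv : ‖v‖ = 1) {φ : X → ℝ}
    (hφ : Integrable φ μ) :
    VectorMeasure.integral (spanMeas μ v) φ (lsmul ℝ ℝ) = (∫ x, φ x ∂μ) • v := by
  have h1 := variation_spanMeas μ hv
  have : IsFiniteMeasure (spanMeas μ v).variation := by rw [h1]; exact hμ
  have h2 := integral_of_const_polar (D := spanMeas μ v) (v := v) (φ := φ)
    (by intro s hs; rw [h1]; exact spanMeas_apply μ v hs) (by rw [h1]; exact hφ)
  rw [h2, h1]

end Pool.Agent.Lib.MP_d02974_an
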