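import Pool.Agent.Lib.MP_d02974_an.Approx
import Pool.Agent.Lib.MP_d02974_an.Polar

/-!
The counterexample in the plane.
-/

namespace Pool.Agent.Lib.MP_d02974_an

open MeasureTheory Filter Topology Set
open scoped ENNReal Real

/-- The law of the dust in `ℝ²`. -/
noncomputable def law (x₀ : ℂ) (t : ℕ → ℝ) : Measure (Sp 2) := Pm.map (fun ω => io (pt x₀ t ω))

section

variable {t : ℕ → ℝ} (ht : Scale t) (x₀ : ℂ)

include ht

lemma measurable_iopt : Measurable (fun ω => io (pt x₀ t ω)) :=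
  io.continuous.measurable.comp (measurable_pt ht x₀)

/-- The coding map is injective and continuous on a compact space, so the law of any set, measurable
or not, is the measure of its preimage. -/
lemma law_apply (S : Set (Sp 2)) : law x₀ t S = Pm ((fun ω => io (pt x₀ t ω)) ⁻¹' S) := by
  have hc : Continuous (fun ω => io (pt x₀ t ω)) := io.continuous.comp (continuous_pt ht x₀)
  have hi : Function.Injective (fun ω => io (pt x₀ t ω)) :=
    io.injective.comp (pt_injective ht x₀)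
  exact (hc.isClosedEmbedding hi).measurableEmbedding.map_apply _ _

lemma isProb_law : IsProbabilityMeasure (law x₀ t) :=
  Measure.isProbabilityMeasure_map (measurable_iopt ht x₀).aemeasurable

/-- A set of diameter less than `t_k` has mass at most `4^{-k-1}`. -/
lemma law_small {s : Set (Sp 2)} {k : ℕ} (hs : Metric.ediam s < ENNReal.ofReal (t k)) :
    law x₀ t s ≤ (4⁻¹ : ℝ≥0∞) ^ (k + 1) := by
  have h1 : law x₀ t s ≤ law x₀ t (closure s) := measure_mono subset_closure
  refine h1.trans ?_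
  rw [law, Measure.map_apply (measurable_iopt ht x₀) isClosed_closure.measurableSet]
  by_cases hne : ((fun ω => io (pt x₀ t ω)) ⁻¹' closure s).Nonempty
  · obtain ⟨ω, hω⟩ := hne
    rw [← Pm_cyl (k + 1) ω]
    refine measure_mono (fun ω' hω' => ?_)
    by_contra hcyl
    obtain ⟨j, hj, h2, h3⟩ := exists_first_diff hcyl
    have h4 := pt_sep ht x₀ (fun i hi => (h2 i hi).symm) (Ne.symm h3)
    have h5 : edist (io (pt x₀ t ω)) (io (pt x₀ t ω')) ≤ Metric.ediam (closure s) :=
      Metric.edist_le_ediam_of_mem hω hω'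
    rw [Metric.ediam_closure, io.edist_map, edist_dist, dist_eq_norm] at h5
    have h6 : t k ≤ t j := ht.anti (by omega)
    have h7 : ENNReal.ofReal (t k) ≤ ENNReal.ofReal ‖pt x₀ t ω - pt x₀ t ω'‖ :=
      ENNReal.ofReal_le_ofReal (h6.trans h4)
    exact absurd (h7.trans h5) (not_le.2 hs)
  · rw [Set.not_nonempty_iff_eq_empty.1 hne]
    simp

lemma smul_law_le {C : ℝ} (hC : 0 < C) : ENNReal.ofReal C • law x₀ t ≤ μH[1] := by
  obtain ⟨K, hK⟩ := (Metric.tendsto_atTop.1 ht.dens) C⁻¹ (by positivity)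
  refine Measure.le_hausdorffMeasure 1 _ (ENNReal.ofReal (t K / 2))
    (by have := ht.pos K; positivity) (fun s hs => ?_)
  rw [ENNReal.rpow_one, Measure.smul_apply, smul_eq_mul]
  have hlt : Metric.ediam s < ENNReal.ofReal (t K) := by
    refine lt_of_le_of_lt hs ?_
    rw [ENNReal.ofReal_lt_ofReal_iff (ht.pos K)]
    have := ht.pos K
    linarith
  have htop : Metric.ediam s ≠ ∞ := (lt_of_lt_of_le hlt le_top).ne
  set d := (Metric.ediam s).toReal with hd
  have hded : Metric.ediam s = ENNReal.ofReal d := (ENNReal.ofReal_toReal htop).symm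
  rcases eq_or_lt_of_le (show 0 ≤ d from ENNReal.toReal_nonneg) with h0 | h0
  · -- zero diameter
    have hz : law x₀ t s = 0 := by
      have h1 : ∀ k, law x₀ t s ≤ (4⁻¹ : ℝ≥0∞) ^ (k + 1) := by
        intro k
        apply law_small ht x₀
        rw [hded, ← h0]
        rw [ENNReal.ofReal_lt_ofReal_iff (ht.pos k)]
        exact ht.pos k
      have h2 : Tendsto (fun k : ℕ => (4⁻¹ : ℝ≥0∞) ^ (k + 1)) atTop (𝓝 0) :=
        (ENNReal.tendsto_pow_atTop_nhds_zero_of_lt_one (by
          rw [ENNReal.inv_lt_one]; norm_num)).comp (tendsto_add_atTop_nat 1)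
      exact le_antisymm (ge_of_tendsto' h2 h1) zero_le
    rw [hz, mul_zero]
    exact zero_le
  · have hex : ∃ k, t k ≤ d := by
      obtain ⟨N, hN⟩ := (Metric.tendsto_atTop.1 ht.tendsto_zero) d h0
      refine ⟨N, ?_⟩
      have := hN N le_rfl
      rw [Real.dist_eq, sub_zero] at this
      exact (lt_of_abs_lt this).le
    classical
    set l := Nat.find hex with hl
    have h1 : t l ≤ d := Nat.find_spec hex
    rw [hded, ENNReal.ofReal_lt_ofReal_iff (ht.pos K)] at hlt
    have h2 : K < l := by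
      by_contra h
      have := ht.anti (not_lt.1 h)
      linarith
    obtain ⟨k, hk⟩ : ∃ k, l = k + 1 := ⟨l - 1, by omega⟩
    have h3 : d < t k := by
      by_contra h
      have := Nat.find_min' hex (not_lt.1 h)
      omega
    have h4 : law x₀ t s ≤ (4⁻¹ : ℝ≥0∞) ^ (k + 1) := by
      apply law_small ht x₀
      rw [hded, ENNReal.ofReal_lt_ofReal_iff (ht.pos k)]
      exact h3
    have h5 := hK (k + 1) (by omega)
    rw [Real.dist_eq, sub_zero] at h5
    have h6 := (abs_lt.1 h5).2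
    rw [hk] at h1
    have h7 : C * (1 / 4) ^ (k + 1) ≤ d := by
      rw [div_lt_iff₀ (ht.pos _)] at h6
      have h8 : C * (1 / 4) ^ (k + 1) < C * (C⁻¹ * t (k + 1)) := by gcongr
      rw [← mul_assoc, mul_inv_cancel₀ hC.ne', one_mul] at h8
      linarith
    calc ENNReal.ofReal C * law x₀ t s ≤ ENNReal.ofReal C * (4⁻¹ : ℝ≥0∞) ^ (k + 1) := by gcongr
      _ = ENNReal.ofReal (C * (1 / 4) ^ (k + 1)) := by
          rw [ofReal_quarter, ENNReal.ofReal_mul hC.le]
      _ ≤ ENNReal.ofReal d := ENNReal.ofReal_le_ofReal h7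
      _ = Metric.ediam s := hded.symm

lemma law_eq_zero {A : Set (Sp 2)} (hA : μH[1] A < ∞) : law x₀ t A = 0 := by
  by_contra hne
  have hpos : 0 < law x₀ t A := pos_iff_ne_zero.2 hne
  have hlaw : IsProbabilityMeasure (law x₀ t) := isProb_law ht x₀
  set a := (law x₀ t A).toReal with ha
  have ha0 : 0 < a := ENNReal.toReal_pos hne (measure_ne_top _ _)
  set h := (μH[1] A).toReal with hh
  have hC : 0 < (h + 1) / a := div_pos (by positivity) ha0
  have h1 := smul_law_le ht x₀ hC A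
  rw [Measure.smul_apply, smul_eq_mul] at h1
  have h2 : law x₀ t A = ENNReal.ofReal a := (ENNReal.ofReal_toReal (measure_ne_top _ _)).symm
  have h3 : μH[1] A = ENNReal.ofReal h := (ENNReal.ofReal_toReal hA.ne).symm
  rw [h2, h3, ← ENNReal.ofReal_mul hC.le, div_mul_cancel₀ _ ha0.ne',
    ENNReal.ofReal_le_ofReal_iff (by positivity)] at h1
  linarith

/-- The unit matrix `diag(1,-1)/√2`. -/
noncomputable def M1 : Mat 2 := WithLp.toLp 2 (fun p : Fin 2 × Fin 2 =>
  if p = (0, 0) then (√2)⁻¹ else if p = (1, 1) then -(√2)⁻¹ else 0)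

omit ht in
lemma norm_M1 : ‖M1‖ = 1 := by
  rw [EuclideanSpace.norm_eq]
  simp only [M1, Fintype.sum_prod_type, Fin.sum_univ_two]
  norm_num

/-- The total variation measure of the deviatoric strain. -/
noncomputable def mu1 (x₀ : ℂ) (t : ℕ → ℝ) : Measure (Sp 2) := ENNReal.ofReal (√2 * π) • law x₀ t

lemma isFin_mu1 : IsFiniteMeasure (mu1 x₀ t) := by
  have := isProb_law ht x₀
  unfold mu1
  exact ⟨by
    rw [Measure.smul_apply, measure_univ, smul_eq_mul, mul_one]
    exact ENNReal.ofReal_lt_top⟩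

lemma integral_mu1 {φ : Sp 2 → ℝ} (hφ : Continuous φ) :
    ∫ x, φ x ∂(mu1 x₀ t) = √2 * π * ∫ ω, φ (io (pt x₀ t ω)) ∂Pm := by
  rw [mu1, integral_smul_measure, law, integral_map (measurable_iopt ht x₀).aemeasurable
    hφ.aestronglyMeasurable, ENNReal.toReal_ofReal (by positivity), smul_eq_mul]

section test

omit ht
variable {Ω : Set (Sp 2)} {φ : Sp 2 → ℝ} (hφ : IsTest Ω φ)

include hφ

lemma contDiff_test_io : ContDiff ℝ 1 (fun z => φ (io z)) :=
  (hφ.1.of_le (by norm_cast)).comp io.contDiff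

lemma compact_test_io : HasCompactSupport (fun z => φ (io z)) :=
  hφ.2.1.comp_homeomorph io.toHomeomorph

lemma differentiable_test : Differentiable ℝ φ := hφ.1.differentiable (by norm_cast)

lemma dbar_test (z : ℂ) :
    dbar (fun z => φ (io z)) z = (pd φ 0 (io z) : ℂ) + Complex.I * (pd φ 1 (io z) : ℂ) := by
  have h : ∀ v, fderiv ℝ (fun z => φ (io z)) z v = fderiv ℝ φ (io z) (io v) := by
    intro v
    have h1 : HasFDerivAt (fun z => io z) (io.toContinuousLinearEquiv : ℂ →L[ℝ] Sp 2) z :=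
      io.toContinuousLinearEquiv.hasFDerivAt
    have h2 := (differentiable_test hφ (io z)).hasFDerivAt.comp z h1
    have h3 : fderiv ℝ (fun z => φ (io z)) z = _ := h2.fderiv
    rw [h3]
    rfl
  unfold dbar pd
  rw [h, h, io_e0, io_e1]

lemma pd_zero_off (j : Fin 2) {x : Sp 2} (hx : x ∉ Ω) : pd φ j x = 0 := by
  have h1 : x ∉ tsupport φ := fun h => hx (hφ.2.2 h)
  have h2 : x ∉ Function.support (fderiv ℝ φ) := fun h => h1 (support_fderiv_subset ℝ h)
  have h3 : fderiv ℝ φ x = 0 := by simpa using h2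
  rw [pd, h3]; rfl

end test

lemma re_im_cau {Ω : Set (Sp 2)} {φ : Sp 2 → ℝ} (hφ : IsTest Ω φ) :
    (∫ z, (pd φ 0 (io z) * (cau x₀ t z).re - pd φ 1 (io z) * (cau x₀ t z).im) =
      -(2 * π * ∫ ω, φ (io (pt x₀ t ω)) ∂Pm)) ∧
    (∫ z, (pd φ 0 (io z) * (cau x₀ t z).im + pd φ 1 (io z) * (cau x₀ t z).re) = 0) := by
  have h1 := dbar_cau ht x₀ (contDiff_test_io hφ) (compact_test_io hφ)
  have hint := integrable_mul_cau ht x₀ (continuous_dbar (contDiff_test_io hφ))
    (hasCompactSupport_dbar (compact_test_io hφ))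
  have hre : (∫ z, dbar (fun z => φ (io z)) z * cau x₀ t z).re =
      ∫ z, (dbar (fun z => φ (io z)) z * cau x₀ t z).re := (integral_re hint).symm
  have him : (∫ z, dbar (fun z => φ (io z)) z * cau x₀ t z).im =
      ∫ z, (dbar (fun z => φ (io z)) z * cau x₀ t z).im := (integral_im hint).symm
  rw [h1] at hre him
  constructor
  · have : ∀ z, (dbar (fun z => φ (io z)) z * cau x₀ t z).re =
        pd φ 0 (io z) * (cau x₀ t z).re - pd φ 1 (io z) * (cau x₀ t z).im := by
      intro z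
      rw [dbar_test hφ]
      simp
    simp only [this] at hre
    rw [← hre]
    simp
  · have : ∀ z, (dbar (fun z => φ (io z)) z * cau x₀ t z).im =
        pd φ 0 (io z) * (cau x₀ t z).im + pd φ 1 (io z) * (cau x₀ t z).re := by
      intro z
      rw [dbar_test hφ]
      simp
    simp only [this] at him
    rw [← him]
    simp

omit ht in
/-- Integrals over `Ω` of expressions vanishing off `Ω`, read in `ℂ`. -/
lemma integral_to_C {Ω : Set (Sp 2)} {F : Sp 2 → ℝ} (hF : ∀ x, x ∉ Ω → F x = 0) :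
    ∫ x in Ω, F x = ∫ z, F (io z) := by
  rw [setIntegral_eq_integral_of_forall_compl_eq_zero hF]
  exact (mp_io.integral_comp io.toHomeomorph.measurableEmbedding F).symm

theorem weak_uu {Ω : Set (Sp 2)} {φ : Sp 2 → ℝ} (hφ : IsTest Ω φ) (i j : Fin 2) :
    ((√2 * π * ∫ ω, φ (io (pt x₀ t ω)) ∂Pm) • M1) (i, j) =
      - ∫ x in Ω, ((uu x₀ t x i * pd φ j x + uu x₀ t x j * pd φ i x) / 2 -
        (if i = j then (∑ k, uu x₀ t x k * pd φ k x) / (2 : ℕ) else 0)) := by
  obtain ⟨h1, h2⟩ := re_im_cau ht x₀ hφ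
  have hoff : ∀ x, x ∉ Ω → (uu x₀ t x i * pd φ j x + uu x₀ t x j * pd φ i x) / 2 -
        (if i = j then (∑ k, uu x₀ t x k * pd φ k x) / (2 : ℕ) else 0) = 0 := by
    intro x hx
    simp [pd_zero_off hφ _ hx]
  rw [integral_to_C hoff]
  have hu0 : ∀ z, uu x₀ t (io z) 0 = (cau x₀ t z).re := by
    intro z; rw [uu, LinearIsometryEquiv.symm_apply_apply, io_zero]
  have hu1 : ∀ z, uu x₀ t (io z) 1 = (cau x₀ t z).im := by
    intro z; rw [uu, LinearIsometryEquiv.symm_apply_apply, io_one]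
  set I := ∫ ω, φ (io (pt x₀ t ω)) ∂Pm with hI
  have hsq : √2 * (√2)⁻¹ = 1 := mul_inv_cancel₀ (by positivity)
  have hM : ∀ p, ((√2 * π * I) • M1) p = (√2 * π * I) * M1 p := fun p => rfl
  rw [hM]
  fin_cases i <;> fin_cases j
  · have : ∀ z, (uu x₀ t (io z) 0 * pd φ 0 (io z) + uu x₀ t (io z) 0 * pd φ 0 (io z)) / 2 -
        (if (0 : Fin 2) = 0 then (∑ k, uu x₀ t (io z) k * pd φ k (io z)) / (2 : ℕ) else 0) =
        (1 / 2) * (pd φ 0 (io z) * (cau x₀ t z).re - pd φ 1 (io z) * (cau x₀ t z).im) := by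
      intro z
      rw [if_pos rfl, Fin.sum_univ_two, hu0, hu1]
      push_cast; ring
    refine Eq.trans ?_ (congrArg Neg.neg (integral_congr_ae (Eventually.of_forall this))).symm
    simp only [Fin.zero_eta]
    rw [integral_const_mul, h1]
    have hm : M1 (0, 0) = (√2)⁻¹ := by simp [M1]
    rw [hm]
    linear_combination (π * I) * hsq
  · have : ∀ z, (uu x₀ t (io z) 0 * pd φ 1 (io z) + uu x₀ t (io z) 1 * pd φ 0 (io z)) / 2 -
        (if (0 : Fin 2) = 1 then (∑ k, uu x₀ t (io z) k * pd φ k (io z)) / (2 : ℕ) else 0) =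
        (1 / 2) * (pd φ 0 (io z) * (cau x₀ t z).im + pd φ 1 (io z) * (cau x₀ t z).re) := by
      intro z
      rw [if_neg (by decide), hu0, hu1]
      ring
    refine Eq.trans ?_ (congrArg Neg.neg (integral_congr_ae (Eventually.of_forall this))).symm
    simp only [Fin.zero_eta, Fin.mk_one]
    rw [integral_const_mul, h2]
    have hm : M1 (0, 1) = 0 := by simp [M1]
    rw [hm]
    ring
  · have : ∀ z, (uu x₀ t (io z) 1 * pd φ 0 (io z) + uu x₀ t (io z) 0 * pd φ 1 (io z)) / 2 -
        (if (1 : Fin 2) = 0 then (∑ k, uu x₀ t (io z) k * pd φ k (io z)) / (2 : ℕ) else 0) =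
        (1 / 2) * (pd φ 0 (io z) * (cau x₀ t z).im + pd φ 1 (io z) * (cau x₀ t z).re) := by
      intro z
      rw [if_neg (by decide), hu0, hu1]
      ring
    refine Eq.trans ?_ (congrArg Neg.neg (integral_congr_ae (Eventually.of_forall this))).symm
    simp only [Fin.zero_eta, Fin.mk_one]
    rw [integral_const_mul, h2]
    have hm : M1 (1, 0) = 0 := by simp [M1]
    rw [hm]
    ring
  · have : ∀ z, (uu x₀ t (io z) 1 * pd φ 1 (io z) + uu x₀ t (io z) 1 * pd φ 1 (io z)) / 2 -
        (if (1 : Fin 2) = 1 then (∑ k, uu x₀ t (io z) k * pd φ k (io z)) / (2 : ℕ) else 0) =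
        (-1 / 2) * (pd φ 0 (io z) * (cau x₀ t z).re - pd φ 1 (io z) * (cau x₀ t z).im) := by
      intro z
      rw [if_pos rfl, Fin.sum_univ_two, hu0, hu1]
      push_cast; ring
    refine Eq.trans ?_ (congrArg Neg.neg (integral_congr_ae (Eventually.of_forall this))).symm
    simp only [Fin.mk_one]
    rw [integral_const_mul, h1]
    have hm : M1 (1, 1) = -(√2)⁻¹ := by simp [M1]
    rw [hm]
    linear_combination (-π * I) * hsq

end

/-- The counterexample on a bounded open set. -/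
theorem main (Ω : Set (Sp 2)) (hΩ : IsOpen Ω) (hne : Ω.Nonempty) (hb : Bornology.IsBounded Ω) :
    ∃ (u : Sp 2 → Sp 2) (D : VectorMeasure (Sp 2) (Mat 2)),
      IntegrableOn u Ω ∧ IsDevStrain Ω u D ∧
      0 < D.variation (approxDisc Ω u \ jumpSet Ω u) ∧
      D.variation (Ω \ (approxDisc Ω u \ jumpSet Ω u)) = 0 ∧
      (∀ A : Set (Sp 2), μH[1] A < ⊤ → D.variation A = 0) ∧
      (∀ x ∈ Ω, QuasiContAt u x) := by
  obtain ⟨y₀, hy₀⟩ := hne
  obtain ⟨ε, hε, hball⟩ := Metric.isOpen_iff.1 hΩ y₀ hy₀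
  set x₀ := io.symm y₀ with hx₀
  set ρ := ε / 10 with hρ
  have hρ0 : 0 < ρ := by positivity
  set t := tt ρ with htdef
  have ht : Scale t := scale_tt hρ0
  have ht0 : t 0 = 3 * ρ := by
    simp [htdef, tt, slow]
    ring
  have hin : ∀ ω, io (pt x₀ t ω) ∈ Ω := by
    intro ω
    apply hball
    rw [Metric.mem_ball]
    have h1 : dist (io (pt x₀ t ω)) y₀ = ‖pt x₀ t ω - x₀‖ := by
      rw [← io.symm.dist_map, LinearIsometryEquiv.symm_apply_apply, dist_eq_norm]
    rw [h1]
    have h2 := pt_dist_center ht x₀ ω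
    rw [ht0] at h2
    have : 3 * (3 * ρ) < ε := by rw [hρ]; linarith
    linarith
  have hfin := isFin_mu1 ht x₀
  have hprob := isProb_law ht x₀
  have hvar : (spanMeas (mu1 x₀ t) M1).variation = mu1 x₀ t := variation_spanMeas _ norm_M1
  have hdiv : ∀ᵐ ω ∂Pm, ∀ c, ¬ Tendsto (fun k => Tk x₀ t k ω) atTop (𝓝 c) := by
    filter_upwards [ae_frequently_Ev] with ω hω c
    exact Tk_not_tendsto ht x₀ (c₀ := 1 / (84 * ρ)) (by positivity) (M := 4) (tt_blk hρ0) hω c
  have hnull : ∀ S : Set (Sp 2), (∀ᵐ ω ∂Pm, io (pt x₀ t ω) ∉ S) → mu1 x₀ t S = 0 := by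
    intro S hS
    have h1 : law x₀ t S = 0 := by
      rw [law_apply ht x₀ S]
      rw [ae_iff] at hS
      have h2 : Pm {ω | io (pt x₀ t ω) ∈ S} = 0 := by simpa using hS
      exact h2
    rw [mu1, Measure.smul_apply, h1, smul_zero]
  have hbad : mu1 x₀ t (Ω \ (approxDisc Ω (uu x₀ t) \ jumpSet Ω (uu x₀ t))) = 0 := by
    apply hnull
    filter_upwards [hdiv] with ω hω hmem
    exact hmem.2 (mem_disc_diff_jump ht x₀ (hin ω) hω)
  have hout : mu1 x₀ t Ωᶜ = 0 := hnull _ (Eventually.of_forall fun ω h => h (hin ω))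
  have htot : 0 < mu1 x₀ t univ := by
    rw [mu1, Measure.smul_apply, measure_univ, smul_eq_mul, mul_one]
    exact ENNReal.ofReal_pos.2 (by positivity)
  refine ⟨uu x₀ t, spanMeas (mu1 x₀ t) M1, integrableOn_uu ht x₀ hb, ⟨?_, ?_, ?_⟩, ?_, ?_, ?_, ?_⟩
  · rw [hvar]; exact measure_lt_top _ _
  · rw [hvar]; exact hout
  · intro φ hφ i j
    have hcont : Continuous φ := hφ.1.continuous
    have hint : Integrable φ (mu1 x₀ t) :=
      hcont.integrable_of_hasCompactSupport hφ.2.1
    rw [integral_spanMeas _ norm_M1 hint, integral_mu1 ht x₀ hcont]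
    exact weak_uu ht x₀ hφ i j
  · rw [hvar]
    by_contra h
    have h0 : mu1 x₀ t (approxDisc Ω (uu x₀ t) \ jumpSet Ω (uu x₀ t)) = 0 :=
      le_antisymm (not_lt.1 h) zero_le
    have hcover : (univ : Set (Sp 2)) ⊆ Ωᶜ ∪ ((approxDisc Ω (uu x₀ t) \ jumpSet Ω (uu x₀ t)) ∪
        (Ω \ (approxDisc Ω (uu x₀ t) \ jumpSet Ω (uu x₀ t)))) := by
      intro x _
      by_cases h1 : x ∈ Ω
      · by_cases h2 : x ∈ approxDisc Ω (uu x₀ t) \ jumpSet Ω (uu x₀ t)
        · right; left; exact h2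
        · right; right; exact ⟨h1, h2⟩
      · left; exact h1
    have : mu1 x₀ t univ = 0 :=
      measure_mono_null hcover (measure_union_null hout (measure_union_null h0 hbad))
    rw [this] at htot
    exact lt_irrefl _ htot
  · rw [hvar]; exact hbad
  · intro A hA
    rw [hvar, mu1, Measure.smul_apply, law_eq_zero ht x₀ hA, smul_zero]
  · intro x _
    exact quasi_all ht x₀ x

end Pool.Agent.Lib.MP_d02974_an
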