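import Pool.Agent.Lib.MP_d02974_an.Kernel

/-!
Local integrals of `1/|z - w|` in the plane, in `ℝ≥0∞` form.
-/

namespace Pool.Agent.Lib.MP_d02974_an

open MeasureTheory Filter Topology Set
open scoped ENNReal Real

lemma lintegral_ball_zero (r : ℝ) (hr : 0 ≤ r) :
    ∫⁻ z in Metric.ball (0:ℂ) r, ‖z‖ₑ⁻¹ = ENNReal.ofReal (2 * π * r) := by
  rw [← lintegral_indicator Metric.isOpen_ball.measurableSet,
    ← Complex.lintegral_comp_polarCoord_symm]
  have h1 : ∫⁻ p in polarCoord.target, ENNReal.ofReal p.1 •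
      (Metric.ball (0:ℂ) r).indicator (fun z => ‖z‖ₑ⁻¹) (Complex.polarCoord.symm p) =
      ∫⁻ p in Ioi (0:ℝ) ×ˢ Ioo (-π) π, (Ioo (0:ℝ) r ×ˢ Ioo (-π) π).indicator (fun _ => 1) p := by
    rw [polarCoord_target]
    refine setLIntegral_congr_fun (measurableSet_Ioi.prod measurableSet_Ioo) ?_
    rintro ⟨s, θ⟩ ⟨hs, hθ⟩
    have hs' : 0 < s := hs
    simp only [polarCoord_symm_eq]
    by_cases h : s < r
    · rw [indicator_of_mem, indicator_of_mem]
      · rw [← ofReal_norm, norm_pol hs'.le, smul_eq_mul, ENNReal.mul_inv_cancel]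
        · simpa using hs'
        · exact ENNReal.ofReal_ne_top
      · exact ⟨⟨hs', h⟩, hθ⟩
      · rw [Metric.mem_ball, dist_zero_right, norm_pol hs'.le]; exact h
    · rw [indicator_of_notMem, indicator_of_notMem]
      · simp
      · intro h'; exact h h'.1.2
      · rw [Metric.mem_ball, dist_zero_right, norm_pol hs'.le]; exact h
  rw [h1, lintegral_indicator (measurableSet_Ioo.prod measurableSet_Ioo), setLIntegral_one,
    Measure.restrict_apply (measurableSet_Ioo.prod measurableSet_Ioo)]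
  have h2 : Ioo (0:ℝ) r ×ˢ Ioo (-π) π ∩ Ioi (0:ℝ) ×ˢ Ioo (-π) π = Ioo (0:ℝ) r ×ˢ Ioo (-π) π := by
    apply inter_eq_left.2
    rintro ⟨s, θ⟩ ⟨hs, hθ⟩
    exact ⟨hs.1, hθ⟩
  rw [h2, Measure.volume_eq_prod, Measure.prod_prod, Real.volume_Ioo, Real.volume_Ioo,
    ← ENNReal.ofReal_mul (by linarith)]
  congr 1
  ring

lemma lintegral_ball_self (w : ℂ) (r : ℝ) (hr : 0 ≤ r) :
    ∫⁻ z in Metric.ball w r, ‖z - w‖ₑ⁻¹ = ENNReal.ofReal (2 * π * r) := by
  rw [← lintegral_ball_zero r hr]
  rw [← lintegral_indicator Metric.isOpen_ball.measurableSet,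
    ← lintegral_indicator Metric.isOpen_ball.measurableSet]
  rw [← lintegral_add_right_eq_self (μ := volume)
    ((Metric.ball w r).indicator fun z => ‖z - w‖ₑ⁻¹) w]
  congr 1
  ext z
  by_cases h : z ∈ Metric.ball (0:ℂ) r
  · rw [indicator_of_mem h, indicator_of_mem]
    · simp
    · simpa [Metric.mem_ball, dist_eq_norm] using h
  · rw [indicator_of_notMem h, indicator_of_notMem]
    simpa [Metric.mem_ball, dist_eq_norm] using h

/-- `∫_{B_r(x)} |z-w|⁻¹ dz ≤ 3 π r`, for every `w`. -/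
lemma lintegral_ball_le (x w : ℂ) {r : ℝ} (hr : 0 < r) :
    ∫⁻ z in Metric.ball x r, ‖z - w‖ₑ⁻¹ ≤ ENNReal.ofReal (3 * π * r) := by
  have h1 : ∀ z, (Metric.ball x r).indicator (fun z => ‖z - w‖ₑ⁻¹) z ≤
      (Metric.ball w r).indicator (fun z => ‖z - w‖ₑ⁻¹) z +
        (Metric.ball x r).indicator (fun _ => (ENNReal.ofReal r)⁻¹) z := by
    intro z
    by_cases hz : z ∈ Metric.ball x r
    · rw [indicator_of_mem hz, indicator_of_mem hz]
      by_cases hw : z ∈ Metric.ball w r
      · rw [indicator_of_mem hw]; exact le_self_add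
      · rw [indicator_of_notMem hw, zero_add]
        rw [Metric.mem_ball, not_lt, dist_eq_norm] at hw
        apply ENNReal.inv_le_inv.2
        rw [← ofReal_norm]
        exact ENNReal.ofReal_le_ofReal hw
    · rw [indicator_of_notMem hz]; exact zero_le
  calc ∫⁻ z in Metric.ball x r, ‖z - w‖ₑ⁻¹
      = ∫⁻ z, (Metric.ball x r).indicator (fun z => ‖z - w‖ₑ⁻¹) z := by
        rw [lintegral_indicator Metric.isOpen_ball.measurableSet]
    _ ≤ ∫⁻ z, ((Metric.ball w r).indicator (fun z => ‖z - w‖ₑ⁻¹) z +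
        (Metric.ball x r).indicator (fun _ => (ENNReal.ofReal r)⁻¹) z) := lintegral_mono h1
    _ = (∫⁻ z, (Metric.ball w r).indicator (fun z => ‖z - w‖ₑ⁻¹) z) +
        ∫⁻ z, (Metric.ball x r).indicator (fun _ => (ENNReal.ofReal r)⁻¹) z := by
        apply lintegral_add_right
        exact measurable_const.indicator Metric.isOpen_ball.measurableSet
    _ = ENNReal.ofReal (2 * π * r) + (ENNReal.ofReal r)⁻¹ * volume (Metric.ball x r) := by
        rw [lintegral_indicator Metric.isOpen_ball.measurableSet,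
          lintegral_indicator Metric.isOpen_ball.measurableSet, setLIntegral_const,
          lintegral_ball_self w r hr.le]
    _ = ENNReal.ofReal (3 * π * r) := by
        rw [Complex.volume_ball, ← ENNReal.ofReal_inv_of_pos hr, ← ENNReal.ofReal_pow hr.le,
          ← ENNReal.ofReal_coe_nnreal, ← ENNReal.ofReal_mul (by positivity),
          ← ENNReal.ofReal_mul (by positivity), ← ENNReal.ofReal_add (by positivity)
            (by positivity)]
        congr 1
        rw [NNReal.coe_real_pi]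
        field_simp
        ring

end Pool.Agent.Lib.MP_d02974_an
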