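import Pool.Agent.Lib.MP_d02974_an.Star

/-!
The concrete scales `t_k = ρ 4^{-k} (3 + ⌊log₄ (k+1)⌋)`, and the deviation constants tend to zero.
-/

namespace Pool.Agent.Lib.MP_d02974_an

open MeasureTheory Filter Topology Set
open scoped ENNReal Real

/-- `3 + ⌊log₄ (k+1)⌋`. -/
noncomputable def slow (k : ℕ) : ℝ := 3 + (Nat.log 4 (k + 1) : ℝ)

/-- The scales. -/
noncomputable def tt (ρ : ℝ) (k : ℕ) : ℝ := ρ * (1 / 4) ^ k * slow k

lemma slow_ge (k : ℕ) : 3 ≤ slow k := by unfold slow; linarith [Nat.cast_nonneg (α := ℝ) (Nat.log 4 (k+1))]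

lemma slow_mono (k : ℕ) : slow k ≤ slow (k + 1) := by
  unfold slow
  have : Nat.log 4 (k + 1) ≤ Nat.log 4 (k + 1 + 1) := Nat.log_mono_right (by omega)
  have h : (Nat.log 4 (k + 1) : ℝ) ≤ (Nat.log 4 (k + 1 + 1) : ℝ) := by exact_mod_cast this
  linarith

lemma slow_succ (k : ℕ) : slow (k + 1) ≤ slow k + 1 := by
  unfold slow
  have h1 : Nat.log 4 (k + 1 + 1) ≤ Nat.log 4 ((k + 1) * 4) := Nat.log_mono_right (by omega)
  rw [Nat.log_mul_base (by norm_num) (by omega)] at h1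
  have h : (Nat.log 4 (k + 1 + 1) : ℝ) ≤ (Nat.log 4 (k + 1) + 1 : ℕ) := by exact_mod_cast h1
  push_cast at h
  linarith

lemma tendsto_slow : Tendsto slow atTop atTop := by
  rw [tendsto_atTop]
  intro b
  obtain ⟨N, hN⟩ := exists_nat_ge b
  filter_upwards [eventually_ge_atTop (4 ^ N)] with k hk
  have h1 : N ≤ Nat.log 4 (k + 1) := by
    rw [Nat.le_log_iff_pow_le (by norm_num) (by omega)]
    omega
  have h2 : (N : ℝ) ≤ (Nat.log 4 (k + 1) : ℝ) := by exact_mod_cast h1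
  unfold slow
  linarith

lemma scale_tt {ρ : ℝ} (hρ : 0 < ρ) : Scale (tt ρ) where
  pos k := by
    unfold tt
    have := slow_ge k
    positivity
  third k := by
    unfold tt
    have h1 := slow_succ k
    have h2 := slow_ge k
    have h3 : 0 < ρ * (1 / 4 : ℝ) ^ k := by positivity
    calc ρ * (1 / 4) ^ (k + 1) * slow (k + 1) = ρ * (1 / 4) ^ k * (slow (k + 1) / 4) := by
          rw [pow_succ]; ring
      _ ≤ ρ * (1 / 4) ^ k * (slow k / 3) := by
          apply mul_le_mul_of_nonneg_left _ h3.le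
          linarith
      _ = ρ * (1 / 4) ^ k * slow k / 3 := by ring
  quarter k := by
    unfold tt
    have h1 := slow_mono k
    have h3 : 0 < ρ * (1 / 4 : ℝ) ^ k := by positivity
    calc ρ * (1 / 4) ^ k * slow k ≤ ρ * (1 / 4) ^ k * slow (k + 1) := by gcongr
      _ = 4 * (ρ * (1 / 4) ^ (k + 1) * slow (k + 1)) := by rw [pow_succ]; ring
  dens := by
    have h1 : (fun k => (1 / 4 : ℝ) ^ k / tt ρ k) = fun k => ρ⁻¹ * (slow k)⁻¹ := by
      ext k
      unfold tt
      have := slow_ge k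
      have h2 : slow k ≠ 0 := by linarith
      field_simp
    rw [h1]
    have := tendsto_slow.inv_tendsto_atTop.const_mul ρ⁻¹
    simpa using this

lemma tt_blk {ρ : ℝ} (hρ : 0 < ρ) : ∀ m ≥ 4,
    1 / (84 * ρ) ≤ ∑ k ∈ blk m, (1 / 4 : ℝ) ^ (k + 1) / (3 * tt ρ k) := by
  intro m hm
  set n := Nat.log 4 m with hn
  have hn1 : 1 ≤ n := by
    rw [hn, Nat.le_log_iff_pow_le (by norm_num) (by omega)]; omega
  have hmn : m < 4 ^ (n + 1) := Nat.lt_pow_succ_log_self (by norm_num) m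
  have hterm : ∀ k ∈ blk m, 1 / (84 * ρ * n) ≤ (1 / 4 : ℝ) ^ (k + 1) / (3 * tt ρ k) := by
    intro k hk
    rw [blk, Finset.mem_Ico] at hk
    have h1 : k + 1 < 4 ^ (2 * n + 3) := by
      have h2 : Nat.log 4 m ≤ m := Nat.log_le_self 4 m
      have h3 : k + 1 ≤ m ^ 2 + m := by omega
      have h4 : m ^ 2 + m ≤ 2 * m ^ 2 := by nlinarith
      have h5 : m ^ 2 < (4 ^ (n + 1)) ^ 2 := Nat.pow_lt_pow_left hmn (by norm_num)
      have h6 : 2 * (4 ^ (n + 1)) ^ 2 ≤ 4 ^ (2 * n + 3) := by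
        rw [← pow_mul, show (n + 1) * 2 = 2 * n + 2 by ring, pow_succ 4 (2 * n + 2)]
        omega
      omega
    have h2 : Nat.log 4 (k + 1) < 2 * n + 3 := Nat.log_lt_of_lt_pow (by omega) h1
    have h3 : slow k ≤ 7 * n := by
      unfold slow
      have h4 : (Nat.log 4 (k + 1) : ℝ) ≤ 2 * n + 2 := by
        have : Nat.log 4 (k + 1) ≤ 2 * n + 2 := by omega
        exact_mod_cast this
      have h5 : (1 : ℝ) ≤ n := by exact_mod_cast hn1
      linarith
    have h4 := slow_ge k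
    have h5 : (1 / 4 : ℝ) ^ (k + 1) / (3 * tt ρ k) = 1 / (12 * ρ * slow k) := by
      unfold tt
      rw [pow_succ]
      field_simp
      norm_num
    rw [h5]
    apply one_div_le_one_div_of_le (by positivity)
    calc 12 * ρ * slow k ≤ 12 * ρ * (7 * n) := by gcongr
      _ = 84 * ρ * n := by ring
  have hsum := Finset.card_nsmul_le_sum (blk m) _ _ hterm
  rw [blk_card, nsmul_eq_mul, ← hn] at hsum
  refine le_trans (le_of_eq ?_) hsum
  have : (n : ℝ) ≠ 0 := by
    have : (1 : ℝ) ≤ n := by exact_mod_cast hn1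
    linarith
  field_simp

/-- A sequence with `a_{k+1} ≤ (a_k + b_k)/3`, `b_k → 0`, tends to zero. -/
lemma tendsto_of_rec {a b : ℕ → ℝ} (ha : ∀ k, 0 ≤ a k) (hb : Tendsto b atTop (𝓝 0))
    (hrec : ∀ k, a (k + 1) ≤ (a k + b k) / 3) : Tendsto a atTop (𝓝 0) := by
  rw [Metric.tendsto_atTop]
  intro ε hε
  obtain ⟨K, hK⟩ := (Metric.tendsto_atTop.1 hb) (ε / 2) (by positivity)
  have h1 : ∀ n, a (K + n) ≤ ε / 2 + a K * (1 / 3) ^ n := by
    intro n
    induction n with
    | zero => simp; positivity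
    | succ n ih =>
      have h2 := hrec (K + n)
      have h3 := hK (K + n) (Nat.le_add_right _ _)
      rw [Real.dist_eq, sub_zero] at h3
      have h4 := (abs_lt.1 h3).2
      rw [← add_assoc]
      calc a (K + n + 1) ≤ (a (K + n) + b (K + n)) / 3 := h2
        _ ≤ (ε / 2 + a K * (1 / 3) ^ n + ε / 2) / 3 := by linarith
        _ ≤ ε / 2 + a K * (1 / 3) ^ (n + 1) := by rw [pow_succ]; linarith
  have h2 : Tendsto (fun n : ℕ => a K * (1 / 3 : ℝ) ^ n) atTop (𝓝 0) := by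
    have := (tendsto_pow_atTop_nhds_zero_of_lt_one (by norm_num : (0:ℝ) ≤ 1/3)
      (by norm_num)).const_mul (a K)
    simpa using this
  obtain ⟨N, hN⟩ := (Metric.tendsto_atTop.1 h2) (ε / 2) (by positivity)
  refine ⟨K + N, fun k hk => ?_⟩
  obtain ⟨n, rfl⟩ := Nat.exists_eq_add_of_le (le_trans (Nat.le_add_right K N) hk)
  have h3 := h1 n
  have h4 := hN n (by omega)
  rw [Real.dist_eq, sub_zero] at h4 ⊢
  have h5 := (abs_lt.1 h4).2
  rw [abs_of_nonneg (ha _)]
  linarith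

lemma tendsto_devc {t : ℕ → ℝ} (ht : Scale t) : Tendsto (devc t) atTop (𝓝 0) := by
  set S : ℕ → ℝ := fun k => ∑ j ∈ Finset.range k, (t k / t j) * ((1 / 4 : ℝ) ^ j / t j) with hS
  have hterm : ∀ k j, 0 ≤ (t k / t j) * ((1 / 4 : ℝ) ^ j / t j) := fun k j =>
    mul_nonneg (div_nonneg (ht.pos _).le (ht.pos _).le) (div_nonneg (by positivity) (ht.pos _).le)
  have hS0 : ∀ k, 0 ≤ S k := fun k => Finset.sum_nonneg (fun j _ => hterm k j)
  have hrec : ∀ k, S (k + 1) ≤ (S k + (1 / 4 : ℝ) ^ k / t k) / 3 := by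
    intro k
    have h1 : S (k + 1) = (t (k + 1) / t k) * (S k + (1 / 4 : ℝ) ^ k / t k) := by
      simp only [hS]
      rw [Finset.sum_range_succ, mul_add, Finset.mul_sum]
      congr 1
      refine Finset.sum_congr rfl (fun j _ => ?_)
      have h2 := (ht.pos k).ne'
      have h3 := (ht.pos j).ne'
      field_simp
    rw [h1]
    have h2 : t (k + 1) / t k ≤ 1 / 3 := by
      rw [div_le_iff₀ (ht.pos k)]
      have := ht.third k
      linarith
    have h3 : 0 ≤ S k + (1 / 4 : ℝ) ^ k / t k :=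
      add_nonneg (hS0 k) (div_nonneg (by positivity) (ht.pos _).le)
    calc (t (k + 1) / t k) * (S k + (1 / 4 : ℝ) ^ k / t k)
        ≤ 1 / 3 * (S k + (1 / 4 : ℝ) ^ k / t k) := by gcongr
      _ = _ := by ring
  have hlim := tendsto_of_rec hS0 ht.dens hrec
  have := (ht.dens.const_mul 3).add (hlim.const_mul (3 / 2))
  rw [mul_zero, mul_zero, add_zero] at this
  exact this

/-- For small radii the mean deviation from a suitable truncation is small, uniformly. -/
lemma exists_small_dev {t : ℕ → ℝ} (ht : Scale t) (x₀ : ℂ) {ε : ℝ} (hε : 0 < ε) :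
    ∃ δ > 0, ∀ ω : Seq, ∀ r, 0 < r → r < δ → ∃ k,
      ∫⁻ z in Metric.ball (pt x₀ t ω) r, ‖cau x₀ t z - Tk x₀ t k ω‖ₑ ≤
        ENNReal.ofReal (ε * (π * r ^ 2)) := by
  obtain ⟨K, hK⟩ := (Metric.tendsto_atTop.1 (tendsto_devc ht)) (ε / 16) (by positivity)
  refine ⟨t K, ht.pos K, fun ω r hr hrK => ?_⟩
  have hex : ∃ k, t k ≤ r := by
    have := (Metric.tendsto_atTop.1 ht.tendsto_zero) r hr
    obtain ⟨N, hN⟩ := this
    refine ⟨N, ?_⟩
    have := hN N le_rfl
    rw [Real.dist_eq, sub_zero] at this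
    exact (lt_of_abs_lt this).le
  classical
  set l := Nat.find hex with hl
  have h1 : t l ≤ r := Nat.find_spec hex
  have h2 : K < l := by
    by_contra h
    have := ht.anti (not_lt.1 h)
    linarith
  obtain ⟨k, hk⟩ : ∃ k, l = k + 1 := ⟨l - 1, by omega⟩
  have h3 : r < t k := by
    by_contra h
    have := Nat.find_min' hex (not_lt.1 h)
    omega
  have hkK : K ≤ k := by omega
  have h4 := hK k hkK
  rw [Real.dist_eq, sub_zero, abs_of_nonneg (devc_nonneg ht k)] at h4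
  refine ⟨k, ?_⟩
  calc ∫⁻ z in Metric.ball (pt x₀ t ω) r, ‖cau x₀ t z - Tk x₀ t k ω‖ₑ
      ≤ ∫⁻ z in Metric.ball (pt x₀ t ω) (t k), ‖cau x₀ t z - Tk x₀ t k ω‖ₑ :=
        lintegral_mono_set (Metric.ball_subset_ball h3.le)
    _ ≤ ENNReal.ofReal (π * t k ^ 2 * devc t k) := lintegral_dev_le ht x₀ k ω
    _ ≤ _ := by
        apply ENNReal.ofReal_le_ofReal
        have h5 := ht.quarter k
        rw [hk] at h1
        have h6 : t k ≤ 4 * r := by linarith
        have h7 : t k ^ 2 ≤ (4 * r) ^ 2 := pow_le_pow_left₀ (ht.pos k).le h6 2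
        have h8 := devc_nonneg ht k
        calc π * t k ^ 2 * devc t k ≤ π * (4 * r) ^ 2 * (ε / 16) := by
              gcongr
          _ = ε * (π * r ^ 2) := by ring

end Pool.Agent.Lib.MP_d02974_an
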