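import Pool.Agent.Lib.MP_d02974_an.Defs
import Pool.Agent.Lib.MP_d02974_an.Scales
import Pool.Agent.Lib.MP_d02974_an.Dbar

/-!
Transfer from `ℂ` to `ℝ²`: mean deviations over balls and half-balls.
-/

namespace Pool.Agent.Lib.MP_d02974_an

open MeasureTheory Filter Topology Set
open scoped ENNReal Real

/-- The isometry `ℂ ≃ ℝ²`. -/
noncomputable def io : ℂ ≃ₗᵢ[ℝ] Sp 2 := Complex.orthonormalBasisOneI.repr

lemma io_zero (z : ℂ) : (io z) 0 = z.re := by
  simp [io, Complex.orthonormalBasisOneI_repr_apply]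

lemma io_one (z : ℂ) : (io z) 1 = z.im := by
  simp [io, Complex.orthonormalBasisOneI_repr_apply]

lemma io_e0 : io 1 = EuclideanSpace.single 0 1 := by
  ext i; fin_cases i
  · simp [io_zero]
  · simp [io_one]

lemma io_e1 : io Complex.I = EuclideanSpace.single 1 1 := by
  ext i; fin_cases i
  · simp [io_zero]
  · simp [io_one]

lemma mp_io : MeasurePreserving (io : ℂ → Sp 2) := io.measurePreserving

lemma mp_io_symm : MeasurePreserving (io.symm : Sp 2 → ℂ) := io.symm.measurePreserving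

lemma emb_io_symm : MeasurableEmbedding (io.symm : Sp 2 → ℂ) :=
  io.symm.toHomeomorph.measurableEmbedding

lemma preimage_ball (x : ℂ) (r : ℝ) :
    (io.symm : Sp 2 → ℂ) ⁻¹' Metric.ball x r = Metric.ball (io x) r := by
  ext y
  simp only [mem_preimage, Metric.mem_ball]
  rw [← io.symm.dist_map y (io x), LinearIsometryEquiv.symm_apply_apply]

lemma lintegral_io (x : ℂ) (r : ℝ) (f : ℂ → ℝ≥0∞) :
    ∫⁻ y in Metric.ball (io x) r, f (io.symm y) = ∫⁻ z in Metric.ball x r, f z := by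
  rw [← preimage_ball]
  exact mp_io_symm.setLIntegral_comp_preimage_emb emb_io_symm f _

lemma volume_ball_two (x : Sp 2) {r : ℝ} (hr : 0 ≤ r) :
    volume (Metric.ball x r) = ENNReal.ofReal (π * r ^ 2) := by
  have h1 : Metric.ball x r = (io.symm : Sp 2 → ℂ) ⁻¹' Metric.ball (io.symm x) r := by
    rw [preimage_ball, LinearIsometryEquiv.apply_symm_apply]
  rw [h1, mp_io_symm.measure_preimage_emb emb_io_symm, volume_ball_eq _ hr]

lemma real_volume_ball_two (x : Sp 2) {r : ℝ} (hr : 0 ≤ r) :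
    volume.real (Metric.ball x r) = π * r ^ 2 := by
  rw [Measure.real, volume_ball_two x hr, ENNReal.toReal_ofReal (by positivity)]

/-- The vector field: the Cauchy transform read in `ℝ²`. -/
noncomputable def uu (x₀ : ℂ) (t : ℕ → ℝ) (y : Sp 2) : Sp 2 := io (cau x₀ t (io.symm y))

section

variable {t : ℕ → ℝ} (ht : Scale t) (x₀ : ℂ)

include ht

lemma stronglyMeasurable_uu : StronglyMeasurable (uu x₀ t) :=
  io.continuous.comp_stronglyMeasurable
    ((measurable_cau ht x₀).comp_measurable io.symm.continuous.measurable)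

omit ht in
lemma lintegral_uu_sub (x : ℂ) (r : ℝ) (c : ℂ) :
    ∫⁻ y in Metric.ball (io x) r, ‖uu x₀ t y - io c‖ₑ =
      ∫⁻ z in Metric.ball x r, ‖cau x₀ t z - c‖ₑ := by
  rw [← lintegral_io x r (fun z => ‖cau x₀ t z - c‖ₑ)]
  congr 1
  ext y
  rw [uu, ← map_sub, LinearIsometryEquiv.enorm_map]

lemma integrableOn_uu_ball (x : Sp 2) (r : ℝ) : IntegrableOn (uu x₀ t) (Metric.ball x r) := by
  refine ⟨(stronglyMeasurable_uu ht x₀).aestronglyMeasurable, ?_⟩
  have h := lintegral_uu_sub (t := t) x₀ (io.symm x) r 0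
  rw [map_zero, LinearIsometryEquiv.apply_symm_apply] at h
  simp only [sub_zero] at h
  unfold HasFiniteIntegral
  rw [h]
  exact (integrableOn_cau_ball ht x₀ (io.symm x) r).2

lemma integrableOn_uu {s : Set (Sp 2)} (hs : Bornology.IsBounded s) : IntegrableOn (uu x₀ t) s := by
  obtain ⟨R, hR⟩ := hs.subset_ball (0 : Sp 2)
  exact (integrableOn_uu_ball ht x₀ 0 R).mono_set hR

lemma avg_le {x : Sp 2} {r ε : ℝ} (hr : 0 < r) (hε : 0 ≤ ε) {c : Sp 2}
    (h : ∫⁻ y in Metric.ball x r, ‖uu x₀ t y - c‖ₑ ≤ ENNReal.ofReal (ε * (π * r ^ 2))) :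
    ⨍ y in Metric.ball x r, ‖uu x₀ t y - c‖ ≤ ε := by
  rw [setAverage_eq, real_volume_ball_two x hr.le, smul_eq_mul]
  have h1 : ∫ y in Metric.ball x r, ‖uu x₀ t y - c‖ ≤ ε * (π * r ^ 2) := by
    rw [integral_norm_eq_lintegral_enorm]
    · exact ENNReal.toReal_le_of_le_ofReal (by positivity) h
    · exact ((stronglyMeasurable_uu ht x₀).sub stronglyMeasurable_const).aestronglyMeasurable
  calc (π * r ^ 2)⁻¹ * ∫ y in Metric.ball x r, ‖uu x₀ t y - c‖
      ≤ (π * r ^ 2)⁻¹ * (ε * (π * r ^ 2)) := by gcongr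
    _ = ε := by field_simp

end

/-- Averages over a subset of comparable measure. -/
lemma average_subset_le {s A : Set (Sp 2)} (hAs : A ⊆ s) {C : ℝ} (hC : 0 ≤ C)
    (hA0 : 0 < volume.real A) (hC' : volume.real s ≤ C * volume.real A) (hs0 : 0 < volume.real s)
    {f : Sp 2 → ℝ} (hf : ∀ y, 0 ≤ f y) (hfi : IntegrableOn f s) :
    ⨍ y in A, f y ≤ C * ⨍ y in s, f y := by
  rw [setAverage_eq, setAverage_eq, smul_eq_mul, smul_eq_mul]
  have h1 : ∫ y in A, f y ≤ ∫ y in s, f y :=
    setIntegral_mono_set hfi (Eventually.of_forall hf) (LE.le.eventuallyLE hAs)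
  have h2 : (volume.real A)⁻¹ ≤ C * (volume.real s)⁻¹ := by
    rw [← div_eq_mul_inv, inv_eq_one_div, div_le_div_iff₀ hA0 hs0]
    linarith
  have h3 : 0 ≤ ∫ y in s, f y := integral_nonneg hf
  have h4 : 0 ≤ ∫ y in A, f y := integral_nonneg hf
  calc (volume.real A)⁻¹ * ∫ y in A, f y
      ≤ (C * (volume.real s)⁻¹) * ∫ y in s, f y :=
        mul_le_mul h2 h1 h4 (by positivity)
    _ = C * ((volume.real s)⁻¹ * ∫ y in s, f y) := by ring

/-- Distance of two constants through averages. -/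
lemma norm_sub_le_average {A : Set (Sp 2)} (hA0 : 0 < volume.real A)
    {f : Sp 2 → Sp 2} (hf : IntegrableOn f A) (a b : Sp 2) :
    ‖a - b‖ ≤ (⨍ y in A, ‖f y - a‖) + ⨍ y in A, ‖f y - b‖ := by
  have hfin : volume A ≠ ∞ := by
    intro h
    rw [Measure.real, h] at hA0
    simp at hA0
  have hne : volume A ≠ 0 := by
    intro h
    rw [Measure.real, h] at hA0
    simp at hA0
  have : IsFiniteMeasure (volume.restrict A) := ⟨by
    rw [Measure.restrict_apply_univ]; exact lt_top_iff_ne_top.2 hfin⟩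
  have h1 : ‖a - b‖ = ⨍ _ in A, ‖a - b‖ := by
    rw [setAverage_const hne hfin]
  have i1 : IntegrableOn (fun y => ‖f y - a‖) A := (hf.sub (integrable_const a)).norm
  have i2 : IntegrableOn (fun y => ‖f y - b‖) A := (hf.sub (integrable_const b)).norm
  rw [h1, setAverage_eq, setAverage_eq, setAverage_eq, ← smul_add, ← integral_add i1 i2,
    smul_eq_mul, smul_eq_mul]
  refine mul_le_mul_of_nonneg_left ?_ (by positivity)
  refine integral_mono (integrable_const _) (i1.add i2) (fun y => ?_)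
  have : a - b = (f y - b) - (f y - a) := by abel
  simp only
  rw [this]
  exact (norm_sub_le _ _).trans (by simp [add_comm])

end Pool.Agent.Lib.MP_d02974_an
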