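import Pool.Agent.Lib.MP_d02974_an.Digits

/-!
The uniform product measure on digit sequences; runs of equal digits.
-/

namespace Pool.Agent.Lib.MP_d02974_an

open MeasureTheory Filter Topology Set
open scoped ENNReal Real

/-- Uniform measure on the four corners. -/
noncomputable def qm : Measure (Bool × Bool) := (4⁻¹ : ℝ≥0∞) • Measure.count

lemma qm_singleton (d : Bool × Bool) : qm {d} = 4⁻¹ := by
  simp [qm]

instance : IsProbabilityMeasure qm := by
  constructor
  have h : (Measure.count (Set.univ : Set (Bool × Bool))) = 4 := by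
    rw [Measure.count_apply MeasurableSet.univ]
    simp
  rw [qm, Measure.smul_apply, h, smul_eq_mul]
  exact ENNReal.inv_mul_cancel (by norm_num) (by norm_num)

/-- The product measure on digit sequences. -/
noncomputable def Pm : Measure Seq := Measure.infinitePi (fun _ : ℕ => qm)

instance : IsProbabilityMeasure Pm := by unfold Pm; infer_instance

/-- The event that the digits with index in `s` are prescribed by `ω`. -/
def box (s : Finset ℕ) (ω : Seq) : Set Seq := {ω' | ∀ i ∈ s, ω' i = ω i}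

lemma box_eq (s : Finset ℕ) (ω : Seq) : box s ω = Set.pi s (fun i => {ω i}) := by
  ext ω'; simp [box, Set.mem_pi]

lemma measurableSet_box (s : Finset ℕ) (ω : Seq) : MeasurableSet (box s ω) := by
  rw [box_eq]
  exact MeasurableSet.pi s.countable_toSet (fun i _ => measurableSet_singleton _)

lemma Pm_box (s : Finset ℕ) (ω : Seq) : Pm (box s ω) = (4⁻¹ : ℝ≥0∞) ^ s.card := by
  rw [box_eq, Pm, Measure.infinitePi_pi _ (fun i _ => measurableSet_singleton _)]
  simp [qm_singleton]

/-- The cylinder of sequences agreeing with `ω` below `k`. -/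
def cyl (k : ℕ) (ω : Seq) : Set Seq := {ω' | ∀ i < k, ω' i = ω i}

lemma cyl_eq_box (k : ℕ) (ω : Seq) : cyl k ω = box (Finset.range k) ω := by
  ext ω'; simp [cyl, box]

lemma measurableSet_cyl (k : ℕ) (ω : Seq) : MeasurableSet (cyl k ω) := by
  rw [cyl_eq_box]; exact measurableSet_box _ _

lemma Pm_cyl (k : ℕ) (ω : Seq) : Pm (cyl k ω) = (4⁻¹ : ℝ≥0∞) ^ k := by
  rw [cyl_eq_box, Pm_box, Finset.card_range]

lemma cyl_anti (ω : Seq) {j k : ℕ} (h : j ≤ k) : cyl k ω ⊆ cyl j ω :=
  fun _ hω' i hi => hω' i (lt_of_lt_of_le hi h)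

/-- Block number `m`: indices `m^2 ≤ i < m^2 + log₄ m`. -/
def blk (m : ℕ) : Finset ℕ := Finset.Ico (m ^ 2) (m ^ 2 + Nat.log 4 m)

lemma blk_card (m : ℕ) : (blk m).card = Nat.log 4 m := by simp [blk]

lemma blk_disjoint {m n : ℕ} (h : m < n) : Disjoint (blk m) (blk n) := by
  rw [Finset.disjoint_left]
  intro i hi hj
  rw [blk, Finset.mem_Ico] at hi hj
  have h1 : Nat.log 4 m ≤ m := (Nat.log_le_self 4 m)
  have h2 : (m + 1) ^ 2 ≤ n ^ 2 := Nat.pow_le_pow_left h 2
  nlinarith

/-- The sequence all of whose digits are `(true, true)`. -/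
def top : Seq := fun _ => (true, true)

/-- All digits in block `m` are `(true, true)`. -/
def Ev (m : ℕ) : Set Seq := box (blk m) top

lemma measurableSet_Ev (m : ℕ) : MeasurableSet (Ev m) := measurableSet_box _ _

lemma Pm_Ev (m : ℕ) : Pm (Ev m) = (4⁻¹ : ℝ≥0∞) ^ (Nat.log 4 m) := by
  rw [Ev, Pm_box, blk_card]

lemma biInter_box (S : Finset ℕ) (ω : Seq) :
    (⋂ m ∈ S, box (blk m) ω) = box (S.biUnion blk) ω := by
  ext ω'
  simp only [mem_iInter, box, mem_ofPred_eq, Finset.mem_biUnion]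
  constructor
  · rintro h i ⟨m, hm, hi⟩; exact h m hm i hi
  · intro h m hm i hi; exact h i ⟨m, hm, hi⟩

lemma iIndepSet_Ev : ProbabilityTheory.iIndepSet Ev Pm := by
  rw [ProbabilityTheory.iIndepSet_iff_meas_biInter measurableSet_Ev]
  intro S
  have h1 : (⋂ m ∈ S, Ev m) = box (S.biUnion blk) top := biInter_box S top
  rw [h1, Pm_box, Finset.card_biUnion, ← Finset.prod_pow_eq_pow_sum]
  · refine Finset.prod_congr rfl (fun m _ => ?_)
    rw [Ev, Pm_box]
  · intro m _ n _ hmn
    rcases lt_or_gt_of_ne hmn with h | h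
    · exact blk_disjoint h
    · exact (blk_disjoint h).symm

lemma tsum_Ev : ∑' m, Pm (Ev m) = ∞ := by
  have h1 : ∀ m : ℕ, ENNReal.ofReal (1 / ((m : ℝ) + 1)) ≤ Pm (Ev (m + 1)) := by
    intro m
    rw [Pm_Ev, ← ENNReal.inv_pow]
    have h2 : (4 : ℕ) ^ Nat.log 4 (m + 1) ≤ m + 1 := Nat.pow_log_le_self 4 (by omega)
    have h3 : ((4 : ℝ≥0∞)) ^ Nat.log 4 (m + 1) ≤ ((m + 1 : ℕ) : ℝ≥0∞) := by
      exact_mod_cast h2
    refine le_trans ?_ (ENNReal.inv_le_inv.2 h3)
    rw [one_div, ENNReal.ofReal_inv_of_pos (by positivity)]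
    refine ENNReal.inv_le_inv.2 ?_
    rw [show ((m : ℝ) + 1) = ((m + 1 : ℕ) : ℝ) by push_cast; ring, ENNReal.ofReal_natCast]
  have h2 : ∑' m : ℕ, ENNReal.ofReal (1 / ((m : ℝ) + 1)) = ∞ := by
    by_contra hne
    have hs : Summable (fun m : ℕ => 1 / ((m : ℝ) + 1)) := by
      have := ENNReal.summable_toReal hne
      refine this.congr (fun m => ?_)
      rw [ENNReal.toReal_ofReal (by positivity)]
    have := (summable_nat_add_iff (f := fun m : ℕ => 1 / (m : ℝ)) 1).1 (by simpa using hs)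
    exact Real.not_summable_one_div_natCast this
  have h3 : ∑' m, Pm (Ev (m + 1)) ≤ ∑' m, Pm (Ev m) :=
    ENNReal.tsum_comp_le_tsum_of_injective (add_left_injective 1) _
  refine top_le_iff.1 ?_
  calc (∞ : ℝ≥0∞) = ∑' m : ℕ, ENNReal.ofReal (1 / ((m : ℝ) + 1)) := h2.symm
    _ ≤ ∑' m, Pm (Ev (m + 1)) := ENNReal.tsum_le_tsum h1
    _ ≤ _ := h3

/-- Almost every digit sequence contains infinitely many full blocks of `(true, true)`. -/
lemma ae_frequently_Ev : ∀ᵐ ω ∂Pm, ∃ᶠ m in atTop, ω ∈ Ev m := by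
  have h := ProbabilityTheory.measure_limsup_eq_one measurableSet_Ev iIndepSet_Ev tsum_Ev
  have h2 : ∀ᵐ ω ∂Pm, ω ∈ limsup Ev atTop := by
    rw [← prob_compl_eq_zero_iff (MeasurableSet.measurableSet_limsup measurableSet_Ev)] at h
    rw [ae_iff]
    exact h
  filter_upwards [h2] with ω hω
  rwa [mem_limsup_iff_frequently_mem] at hω

end Pool.Agent.Lib.MP_d02974_an
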