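import Pool.Agent.Lib.MP_d02974_an.Trans

/-!
Mean deviation of the Cauchy transform from the truncation, on the ball of radius `t_k`.
-/

namespace Pool.Agent.Lib.MP_d02974_an

open MeasureTheory Filter Topology Set
open scoped ENNReal Real

variable {t : ℕ → ℝ} (ht : Scale t) (x₀ : ℂ)

include ht

lemma measurable_kerz (z : ℂ) : Measurable (fun ω => (z - pt x₀ t ω)⁻¹) :=
  (measurable_const.sub (measurable_pt ht x₀)).inv

/-- The difference kernel. -/
lemma enorm_cau_sub_le (z : ℂ) (k : ℕ) (ω : Seq) :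
    ‖cau x₀ t z - Tk x₀ t k ω‖ₑ ≤
      ∫⁻ ω', ‖(z - pt x₀ t ω')⁻¹ -
        (cyl k ω)ᶜ.indicator (fun ω' => (pt x₀ t ω - pt x₀ t ω')⁻¹) ω'‖ₑ ∂Pm := by
  have hT : Integrable ((cyl k ω)ᶜ.indicator (fun ω' => (pt x₀ t ω - pt x₀ t ω')⁻¹)) Pm :=
    (integrableOn_Tk ht x₀ k ω).integrable_indicator (measurableSet_cyl k ω).compl
  by_cases hi : Integrable (fun ω' => (z - pt x₀ t ω')⁻¹) Pm
  · have h1 : cau x₀ t z - Tk x₀ t k ω = ∫ ω', ((z - pt x₀ t ω')⁻¹ -
        (cyl k ω)ᶜ.indicator (fun ω' => (pt x₀ t ω - pt x₀ t ω')⁻¹) ω') ∂Pm := by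
      rw [integral_sub hi hT, integral_indicator (measurableSet_cyl k ω).compl]
      rfl
    rw [h1]
    exact enorm_integral_le_lintegral_enorm _
  · have h2 : ∫⁻ ω', ‖(z - pt x₀ t ω')⁻¹ -
        (cyl k ω)ᶜ.indicator (fun ω' => (pt x₀ t ω - pt x₀ t ω')⁻¹) ω'‖ₑ ∂Pm = ∞ := by
      by_contra hne
      apply hi
      have h3 : Integrable (fun ω' => (z - pt x₀ t ω')⁻¹ -
        (cyl k ω)ᶜ.indicator (fun ω' => (pt x₀ t ω - pt x₀ t ω')⁻¹) ω') Pm :=
        ⟨(measurable_kerz ht x₀ z).aestronglyMeasurable.sub hT.aestronglyMeasurable,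
          lt_top_iff_ne_top.2 hne⟩
      have h4 := h3.add hT
      refine h4.congr (Eventually.of_forall fun ω' => ?_)
      simp
    rw [h2]
    exact le_top

/-- Pointwise bound for the difference kernel off the cylinder. -/
lemma ker_diff_le {z : ℂ} {ω ω' : Seq} {j k : ℕ} (hz : ‖z - pt x₀ t ω‖ ≤ t k) (hj : j < k)
    (h1 : ∀ i < j, ω' i = ω i) (h2 : ω' j ≠ ω j) :
    ‖(z - pt x₀ t ω')⁻¹ - (pt x₀ t ω - pt x₀ t ω')⁻¹‖ ≤ 3 / 2 * (t k / t j ^ 2) := by
  have hsep := pt_sep ht x₀ (fun i hi => (h1 i hi).symm) (Ne.symm h2)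
  have hjk := ht.third' hj
  have hjpos := ht.pos j
  have hkpos := ht.pos k
  have h3 : 2 / 3 * t j ≤ ‖z - pt x₀ t ω'‖ := by
    have h4 : ‖pt x₀ t ω - pt x₀ t ω'‖ ≤ ‖z - pt x₀ t ω'‖ + ‖z - pt x₀ t ω‖ := by
      have : pt x₀ t ω - pt x₀ t ω' = (z - pt x₀ t ω') - (z - pt x₀ t ω) := by ring
      rw [this]
      exact norm_sub_le _ _
    linarith
  have h5 : z - pt x₀ t ω' ≠ 0 := by
    intro h; rw [h, norm_zero] at h3; linarith
  have h6 : pt x₀ t ω - pt x₀ t ω' ≠ 0 := by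
    intro h; rw [h, norm_zero] at hsep; linarith
  rw [inv_sub_inv h5 h6, norm_div, norm_mul]
  have h7 : ‖pt x₀ t ω - pt x₀ t ω' - (z - pt x₀ t ω')‖ ≤ t k := by
    have : pt x₀ t ω - pt x₀ t ω' - (z - pt x₀ t ω') = -(z - pt x₀ t ω) := by ring
    rw [this, norm_neg]
    exact hz
  have h8 : (2 / 3 * t j) * t j ≤ ‖z - pt x₀ t ω'‖ * ‖pt x₀ t ω - pt x₀ t ω'‖ := by
    gcongr
  calc ‖pt x₀ t ω - pt x₀ t ω' - (z - pt x₀ t ω')‖ / (‖z - pt x₀ t ω'‖ * ‖pt x₀ t ω - pt x₀ t ω'‖)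
      ≤ t k / ((2 / 3 * t j) * t j) := by gcongr
    _ = 3 / 2 * (t k / t j ^ 2) := by field_simp

/-- The deviation constant. -/
noncomputable def devc (t : ℕ → ℝ) (k : ℕ) : ℝ :=
  3 * ((1 / 4 : ℝ) ^ k / t k) +
    3 / 2 * ∑ j ∈ Finset.range k, (t k / t j) * ((1 / 4 : ℝ) ^ j / t j)

lemma devc_nonneg (k : ℕ) : 0 ≤ devc t k := by
  unfold devc
  have h1 : ∀ k, 0 ≤ t k := fun k => (ht.pos k).le
  have : 0 ≤ ∑ j ∈ Finset.range k, (t k / t j) * ((1 / 4 : ℝ) ^ j / t j) :=
    Finset.sum_nonneg (fun j _ => mul_nonneg (div_nonneg (h1 _) (h1 _))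
      (div_nonneg (by positivity) (h1 _)))
  have h2 : 0 ≤ (1 / 4 : ℝ) ^ k / t k := div_nonneg (by positivity) (h1 _)
  linarith

omit ht in
lemma ofReal_quarter (k : ℕ) : (4⁻¹ : ℝ≥0∞) ^ k = ENNReal.ofReal ((1 / 4 : ℝ) ^ k) := by
  rw [ENNReal.ofReal_pow (by norm_num)]
  congr 1
  rw [one_div, ENNReal.ofReal_inv_of_pos (by norm_num)]
  norm_num

omit ht in
lemma volume_ball_eq (x : ℂ) {r : ℝ} (hr : 0 ≤ r) :
    volume (Metric.ball x r) = ENNReal.ofReal (π * r ^ 2) := by
  rw [Complex.volume_ball, ← ENNReal.ofReal_pow hr, ← ENNReal.ofReal_coe_nnreal,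
    ← ENNReal.ofReal_mul (by positivity)]
  congr 1
  rw [NNReal.coe_real_pi]
  ring

/-- The key estimate: the mean deviation of the Cauchy transform from the truncation of rank `k`
on the ball of radius `t_k` around the point `pt ω` is at most `devc t k`. -/
lemma lintegral_dev_le (k : ℕ) (ω : Seq) :
    ∫⁻ z in Metric.ball (pt x₀ t ω) (t k), ‖cau x₀ t z - Tk x₀ t k ω‖ₑ ≤
      ENNReal.ofReal (π * t k ^ 2 * devc t k) := by
  set G : ℂ → Seq → ℝ≥0∞ := fun z ω' => ‖(z - pt x₀ t ω')⁻¹ -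
        (cyl k ω)ᶜ.indicator (fun ω' => (pt x₀ t ω - pt x₀ t ω')⁻¹) ω'‖ₑ with hG
  have hGm : Measurable (Function.uncurry G) := by
    have h1 : Measurable ((cyl k ω)ᶜ.indicator (fun ω' => (pt x₀ t ω - pt x₀ t ω')⁻¹)) :=
      (measurable_kerz ht x₀ _).indicator (measurableSet_cyl k ω).compl
    exact ((measurable_ker ht x₀).sub (h1.comp measurable_snd)).enorm
  have hk := ht.pos k
  -- inner bound
  have hin : ∀ ω', ∫⁻ z in Metric.ball (pt x₀ t ω) (t k), G z ω' ≤
      (cyl k ω).indicator (fun _ => ENNReal.ofReal (3 * π * t k)) ω' +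
      ∑ j ∈ Finset.range k, (cyl j ω).indicator
        (fun _ => ENNReal.ofReal (3 / 2 * (t k / t j ^ 2) * (π * t k ^ 2))) ω' := by
    intro ω'
    by_cases hω' : ω' ∈ cyl k ω
    · rw [indicator_of_mem hω']
      refine le_trans ?_ le_self_add
      have : ∀ z, G z ω' ≤ ‖z - pt x₀ t ω'‖ₑ⁻¹ := by
        intro z
        simp only [hG]
        rw [indicator_of_notMem (by simpa using hω'), sub_zero]
        by_cases h0 : z - pt x₀ t ω' = 0
        · rw [h0]; simp
        · exact (enorm_inv h0).le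
      exact (lintegral_mono this).trans (lintegral_ball_le _ _ hk)
    · obtain ⟨j, hj, h1, h2⟩ := exists_first_diff hω'
      rw [indicator_of_notMem hω', zero_add]
      have h3 : (cyl j ω).indicator
        (fun _ => ENNReal.ofReal (3 / 2 * (t k / t j ^ 2) * (π * t k ^ 2))) ω' =
        ENNReal.ofReal (3 / 2 * (t k / t j ^ 2) * (π * t k ^ 2)) :=
        indicator_of_mem (show ω' ∈ cyl j ω from h1) _
      refine le_trans ?_ (Finset.single_le_sum (f := fun j => (cyl j ω).indicator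
        (fun _ => ENNReal.ofReal (3 / 2 * (t k / t j ^ 2) * (π * t k ^ 2))) ω')
        (fun _ _ => zero_le) (Finset.mem_range.2 hj))
      rw [h3]
      calc ∫⁻ z in Metric.ball (pt x₀ t ω) (t k), G z ω'
          ≤ ∫⁻ z in Metric.ball (pt x₀ t ω) (t k), ENNReal.ofReal (3 / 2 * (t k / t j ^ 2)) := by
            refine setLIntegral_mono measurable_const (fun z hz => ?_)
            simp only [hG]
            rw [indicator_of_mem (by simpa using hω'), ← ofReal_norm]
            refine ENNReal.ofReal_le_ofReal (ker_diff_le ht x₀ ?_ hj h1 h2)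
            rw [← dist_eq_norm]
            exact (Metric.mem_ball.1 hz).le
        _ = _ := by
            rw [setLIntegral_const, volume_ball_eq _ hk.le, ← ENNReal.ofReal_mul]
            exact mul_nonneg (by norm_num) (div_nonneg hk.le (by positivity))
  calc ∫⁻ z in Metric.ball (pt x₀ t ω) (t k), ‖cau x₀ t z - Tk x₀ t k ω‖ₑ
      ≤ ∫⁻ z in Metric.ball (pt x₀ t ω) (t k), ∫⁻ ω', G z ω' ∂Pm :=
        lintegral_mono (fun z => enorm_cau_sub_le ht x₀ z k ω)
    _ = ∫⁻ ω', (∫⁻ z in Metric.ball (pt x₀ t ω) (t k), G z ω') ∂Pm :=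
        lintegral_lintegral_swap hGm.aemeasurable
    _ ≤ ∫⁻ ω', ((cyl k ω).indicator (fun _ => ENNReal.ofReal (3 * π * t k)) ω' +
      ∑ j ∈ Finset.range k, (cyl j ω).indicator
        (fun _ => ENNReal.ofReal (3 / 2 * (t k / t j ^ 2) * (π * t k ^ 2))) ω') ∂Pm :=
        lintegral_mono hin
    _ = ENNReal.ofReal (3 * π * t k) * (4⁻¹) ^ k +
        ∑ j ∈ Finset.range k, ENNReal.ofReal (3 / 2 * (t k / t j ^ 2) * (π * t k ^ 2)) *
          (4⁻¹) ^ j := by
        rw [lintegral_add_left (measurable_const.indicator (measurableSet_cyl k ω)),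
          lintegral_finsetSum _ (fun j _ => measurable_const.indicator (measurableSet_cyl j ω))]
        congr 1
        · rw [lintegral_indicator (measurableSet_cyl k ω), setLIntegral_const, Pm_cyl]
        · refine Finset.sum_congr rfl (fun j _ => ?_)
          rw [lintegral_indicator (measurableSet_cyl j ω), setLIntegral_const, Pm_cyl]
    _ = ENNReal.ofReal (π * t k ^ 2 * devc t k) := by
        have h1 : ∀ j, 0 ≤ 3 / 2 * (t k / t j ^ 2) * (π * t k ^ 2) := fun j =>
          mul_nonneg (mul_nonneg (by norm_num) (div_nonneg hk.le (by positivity))) (by positivity)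
        simp only [ofReal_quarter]
        rw [← ENNReal.ofReal_mul (by positivity)]
        have h2 : ∀ j ∈ Finset.range k, ENNReal.ofReal (3 / 2 * (t k / t j ^ 2) * (π * t k ^ 2)) *
          ENNReal.ofReal ((1 / 4) ^ j) =
          ENNReal.ofReal (3 / 2 * (t k / t j ^ 2) * (π * t k ^ 2) * (1 / 4) ^ j) := by
          intro j _
          rw [← ENNReal.ofReal_mul (h1 j)]
        rw [Finset.sum_congr rfl h2, ← ENNReal.ofReal_sum_of_nonneg
          (fun j _ => mul_nonneg (h1 j) (by positivity)), ← ENNReal.ofReal_add]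
        · congr 1
          unfold devc
          rw [mul_add, Finset.mul_sum, Finset.mul_sum]
          congr 1
          · field_simp
          · refine Finset.sum_congr rfl (fun j _ => ?_)
            have := (ht.pos j).ne'
            field_simp
        · positivity
        · exact Finset.sum_nonneg (fun j _ => mul_nonneg (h1 j) (by positivity))

end Pool.Agent.Lib.MP_d02974_an
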