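import Pool.Agent.Lib.MP_d02974_an.Newton
import Pool.Agent.Lib.MP_d02974_an.Prob

/-!
The Cauchy transform of the dust measure, its truncations, and the divergence of the truncations.
-/

namespace Pool.Agent.Lib.MP_d02974_an

open MeasureTheory Filter Topology Set
open scoped ENNReal Real

/-- The Cauchy transform of the law of `pt`. -/
noncomputable def cau (x₀ : ℂ) (t : ℕ → ℝ) (z : ℂ) : ℂ := ∫ ω, (z - pt x₀ t ω)⁻¹ ∂Pm

/-- The truncated Cauchy transform at the point `pt ω`, leaving out the cylinder of rank `k`. -/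
noncomputable def Tk (x₀ : ℂ) (t : ℕ → ℝ) (k : ℕ) (ω : Seq) : ℂ :=
  ∫ ω' in (cyl k ω)ᶜ, (pt x₀ t ω - pt x₀ t ω')⁻¹ ∂Pm

variable {t : ℕ → ℝ} (ht : Scale t) (x₀ : ℂ)

include ht

lemma measurable_pt : Measurable (pt x₀ t) := (continuous_pt ht x₀).measurable

lemma measurable_ker : Measurable (fun p : ℂ × Seq => (p.1 - pt x₀ t p.2)⁻¹) :=
  (measurable_fst.sub ((measurable_pt ht x₀).comp measurable_snd)).inv

lemma norm_inv_le_of_notMem {ω ω' : Seq} {k : ℕ} (h : ω' ∉ cyl k ω) :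
    ‖(pt x₀ t ω - pt x₀ t ω')⁻¹‖ ≤ (t k)⁻¹ := by
  obtain ⟨j, hj, h1, h2⟩ := exists_first_diff h
  have h3 := pt_sep ht x₀ (fun i hi => (h1 i hi).symm) (Ne.symm h2)
  rw [norm_inv]
  exact inv_anti₀ (ht.pos k) ((ht.anti hj.le).trans h3)

lemma integrableOn_Tk (k : ℕ) (ω : Seq) :
    IntegrableOn (fun ω' => (pt x₀ t ω - pt x₀ t ω')⁻¹) (cyl k ω)ᶜ Pm := by
  refine Measure.integrableOn_of_bounded (M := (t k)⁻¹) (measure_ne_top _ _) ?_ ?_
  · exact ((measurable_const.sub (measurable_pt ht x₀)).inv).aestronglyMeasurable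
  · filter_upwards [ae_restrict_mem (measurableSet_cyl k ω).compl] with ω' hω'
    exact norm_inv_le_of_notMem ht x₀ hω'

lemma Tk_succ_sub (k : ℕ) (ω : Seq) :
    Tk x₀ t (k + 1) ω - Tk x₀ t k ω =
      ∫ ω' in cyl k ω \ cyl (k + 1) ω, (pt x₀ t ω - pt x₀ t ω')⁻¹ ∂Pm := by
  have h1 : (cyl (k + 1) ω)ᶜ = (cyl k ω)ᶜ ∪ (cyl k ω \ cyl (k + 1) ω) := by
    ext ω'
    have := @cyl_anti ω k (k + 1) (Nat.le_succ k) ω'
    simp only [mem_compl_iff, mem_union, Set.mem_sdiff]
    tauto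
  have h2 := integrableOn_Tk ht x₀ (k + 1) ω
  unfold Tk
  rw [h1] at h2 ⊢
  rw [setIntegral_union]
  · ring
  · rw [Set.disjoint_left]
    intro a ha hb
    exact ha hb.1
  · exact (measurableSet_cyl k ω).diff (measurableSet_cyl (k + 1) ω)
  · exact h2.mono_set subset_union_left
  · exact h2.mono_set subset_union_right

omit ht in
lemma ell_eq (z : ℂ) : ((1 + Complex.I) * z⁻¹).re = (z.re + z.im) / Complex.normSq z := by
  simp [Complex.inv_re, Complex.inv_im]
  ring

lemma ell_nonneg {ω ω' : Seq} {k : ℕ} (hω : ω k = (true, true))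
    (h : ω' ∈ cyl k ω \ cyl (k + 1) ω) :
    0 ≤ ((1 + Complex.I) * (pt x₀ t ω - pt x₀ t ω')⁻¹).re := by
  rw [ell_eq]
  refine div_nonneg ?_ (Complex.normSq_nonneg _)
  have hagree : ∀ i < k, ω i = ω' i := fun i hi => (h.1 i hi).symm
  have h3 := ht.third k
  rw [pt_sub_re, pt_sub_im]
  cases h1 : (ω' k).1 <;> cases h2 : (ω' k).2
  · have ha := coord_sep ht (b := fun k => (ω k).1) (b' := fun k => (ω' k).1)
        (fun i hi => by simp only [hagree i hi]) (by simp only [hω]) h1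
    have hb := coord_sep ht (b := fun k => (ω k).2) (b' := fun k => (ω' k).2)
        (fun i hi => by simp only [hagree i hi]) (by simp only [hω]) h2
    have := ht.pos k
    linarith [ha.1, hb.1]
  · have ha := coord_sep ht (b := fun k => (ω k).1) (b' := fun k => (ω' k).1)
        (fun i hi => by simp only [hagree i hi]) (by simp only [hω]) h1
    have hb := coord_close ht (b := fun k => (ω k).2) (b' := fun k => (ω' k).2) (k := k + 1)
        (fun i hi => by
          rcases Nat.lt_succ_iff_lt_or_eq.1 hi with h | h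
          · simp only [hagree i h]
          · subst h; simp only [hω, h2])
    have := abs_le.1 hb
    linarith [ha.1, this.1]
  · have ha := coord_sep ht (b := fun k => (ω k).2) (b' := fun k => (ω' k).2)
        (fun i hi => by simp only [hagree i hi]) (by simp only [hω]) h2
    have hb := coord_close ht (b := fun k => (ω k).1) (b' := fun k => (ω' k).1) (k := k + 1)
        (fun i hi => by
          rcases Nat.lt_succ_iff_lt_or_eq.1 hi with h | h
          · simp only [hagree i h]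
          · subst h; simp only [hω, h1])
    have := abs_le.1 hb
    linarith [ha.1, this.1]
  · exfalso
    apply h.2
    intro i hi
    rcases Nat.lt_succ_iff_lt_or_eq.1 hi with h' | h'
    · exact h.1 i h'
    · subst h'; rw [hω]; exact Prod.ext h1 h2

lemma ell_lower {ω ω' : Seq} {k : ℕ} (hω : ω k = (true, true)) (h : ω' ∈ cyl k ω)
    (hk : ω' k = (false, false)) :
    (3 * t k)⁻¹ ≤ ((1 + Complex.I) * (pt x₀ t ω - pt x₀ t ω')⁻¹).re := by
  rw [ell_eq]
  have hagree : ∀ i < k, ω i = ω' i := fun i hi => (h i hi).symm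
  have ha := coord_sep ht (b := fun k => (ω k).1) (b' := fun k => (ω' k).1) (k := k)
        (fun i hi => by simp only [hagree i hi]) (by simp only [hω]) (by simp only [hk])
  have hb := coord_sep ht (b := fun k => (ω k).2) (b' := fun k => (ω' k).2) (k := k)
        (fun i hi => by simp only [hagree i hi]) (by simp only [hω]) (by simp only [hk])
  rw [Complex.normSq_apply, pt_sub_re, pt_sub_im]
  set a := coord t (fun k => (ω k).1) - coord t (fun k => (ω' k).1)
  set b := coord t (fun k => (ω k).2) - coord t (fun k => (ω' k).2)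
  have hp := ht.pos k
  have ha0 : 0 < a := lt_of_lt_of_le hp ha.1
  have hb0 : 0 < b := lt_of_lt_of_le hp hb.1
  rw [inv_eq_one_div, div_le_div_iff₀ (by positivity) (by positivity)]
  nlinarith [mul_le_mul_of_nonneg_left ha.2 ha0.le, mul_le_mul_of_nonneg_left hb.2 hb0.le]

omit ht in
/-- Change digit `k` of `ω` to `(false, false)`. -/
lemma exists_cyl_false (k : ℕ) (ω : Seq) :
    ∃ A : Set Seq, MeasurableSet A ∧ Pm A = (4⁻¹ : ℝ≥0∞) ^ (k + 1) ∧
      ∀ ω' ∈ A, ω' ∈ cyl k ω ∧ ω' k = (false, false) := by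
  classical
  refine ⟨cyl (k + 1) (Function.update ω k (false, false)), measurableSet_cyl _ _, Pm_cyl _ _, ?_⟩
  intro ω' h
  constructor
  · intro i hi
    have := h i (hi.trans (Nat.lt_succ_self k))
    rwa [Function.update_of_ne hi.ne] at this
  · have := h k (Nat.lt_succ_self k)
    rwa [Function.update_self] at this

/-- When digit `k` of `ω` is `(true,true)`, the truncation moves in the direction `1 - i` by at least
`4^{-k-1} / (3 t_k)`. -/
lemma Tk_step {ω : Seq} {k : ℕ} (hω : ω k = (true, true)) :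
    (1 / 4 : ℝ) ^ (k + 1) / (3 * t k) ≤
      ((1 + Complex.I) * (Tk x₀ t (k + 1) ω - Tk x₀ t k ω)).re := by
  rw [Tk_succ_sub ht]
  set S := cyl k ω \ cyl (k + 1) ω with hS
  have hSm : MeasurableSet S := (measurableSet_cyl k ω).diff (measurableSet_cyl (k + 1) ω)
  have hint : IntegrableOn (fun ω' => (pt x₀ t ω - pt x₀ t ω')⁻¹) S Pm :=
    (integrableOn_Tk ht x₀ (k + 1) ω).mono_set (fun a ha => ha.2)
  have hint2 : IntegrableOn (fun ω' => (1 + Complex.I) * (pt x₀ t ω - pt x₀ t ω')⁻¹) S Pm :=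
    hint.const_mul _
  rw [← integral_const_mul]
  have hre : (∫ ω' in S, (1 + Complex.I) * (pt x₀ t ω - pt x₀ t ω')⁻¹ ∂Pm).re =
      ∫ ω' in S, ((1 + Complex.I) * (pt x₀ t ω - pt x₀ t ω')⁻¹).re ∂Pm :=
    (integral_re hint2).symm
  rw [hre]
  obtain ⟨A, hA, hPA, hA2⟩ := exists_cyl_false k ω
  have hAS : A ⊆ S := by
    intro ω' h
    refine ⟨(hA2 ω' h).1, fun h' => ?_⟩
    have := h' k (Nat.lt_succ_self k)
    rw [(hA2 ω' h).2, hω] at this
    simp at this
  have h1 : ∫ ω' in S, A.indicator (fun _ => (3 * t k)⁻¹) ω' ∂Pm =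
      (1 / 4 : ℝ) ^ (k + 1) / (3 * t k) := by
    rw [setIntegral_indicator hA, inter_eq_right.2 hAS, setIntegral_const, smul_eq_mul,
      Measure.real, hPA, ENNReal.toReal_pow, ENNReal.toReal_inv]
    norm_num
    ring
  rw [← h1]
  refine setIntegral_mono_on ?_ hint2.re hSm ?_
  · exact (integrable_const _).indicator hA
  · intro ω' h'
    by_cases hmem : ω' ∈ A
    · rw [indicator_of_mem hmem]
      exact ell_lower ht x₀ hω (hA2 ω' hmem).1 (hA2 ω' hmem).2
    · rw [indicator_of_notMem hmem]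
      exact ell_nonneg ht x₀ hω h'

/-- Summing the steps over a run of digits `(true,true)`. -/
lemma Tk_run {ω : Seq} {a n : ℕ} (hω : ∀ i ∈ Finset.Ico a (a + n), ω i = (true, true)) :
    ∑ k ∈ Finset.Ico a (a + n), (1 / 4 : ℝ) ^ (k + 1) / (3 * t k) ≤
      ((1 + Complex.I) * (Tk x₀ t (a + n) ω - Tk x₀ t a ω)).re := by
  induction n with
  | zero => simp
  | succ n ih =>
    rw [← add_assoc, Finset.sum_Ico_succ_top (by omega)]
    have h1 := ih (fun i hi => hω i (by
      rw [Finset.mem_Ico] at hi ⊢; omega))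
    have h2 := Tk_step ht x₀ (ω := ω) (k := a + n) (hω _ (by rw [Finset.mem_Ico]; omega))
    have h3 : (1 + Complex.I) * (Tk x₀ t (a + n + 1) ω - Tk x₀ t a ω) =
        (1 + Complex.I) * (Tk x₀ t (a + n) ω - Tk x₀ t a ω) +
        (1 + Complex.I) * (Tk x₀ t (a + n + 1) ω - Tk x₀ t (a + n) ω) := by ring
    rw [h3, Complex.add_re]
    linarith

/-- If along infinitely many blocks the block sums are bounded below and the digits in the block are
all `(true,true)`, the truncations do not converge. -/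
lemma Tk_not_tendsto {c₀ : ℝ} (hc₀ : 0 < c₀) {M : ℕ}
    (hblk : ∀ m ≥ M, c₀ ≤ ∑ k ∈ blk m, (1 / 4 : ℝ) ^ (k + 1) / (3 * t k))
    {ω : Seq} (hω : ∃ᶠ m in atTop, ω ∈ Ev m) (c : ℂ) :
    ¬ Tendsto (fun k => Tk x₀ t k ω) atTop (𝓝 c) := by
  intro hlim
  rw [Metric.tendsto_atTop] at hlim
  obtain ⟨N, hN⟩ := hlim (c₀ / 8) (by positivity)
  obtain ⟨m, hm, hmE⟩ := (frequently_atTop.1 hω) (max M (N + 1))
  have hmM : M ≤ m := (le_max_left _ _).trans hm
  have hmN : N ≤ m := le_trans (Nat.le_succ N) ((le_max_right _ _).trans hm)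
  have hsq : N ≤ m ^ 2 := hmN.trans (Nat.le_self_pow (by norm_num) m)
  have h1 := hblk m hmM
  have h2 : ∀ i ∈ Finset.Ico (m ^ 2) (m ^ 2 + Nat.log 4 m), ω i = (true, true) := by
    intro i hi
    exact hmE i hi
  have h3 := Tk_run ht x₀ h2
  have h4 := hN (m ^ 2 + Nat.log 4 m) (hsq.trans (Nat.le_add_right _ _))
  have h5 := hN (m ^ 2) hsq
  rw [dist_eq_norm] at h4 h5
  have h6 : ‖Tk x₀ t (m ^ 2 + Nat.log 4 m) ω - Tk x₀ t (m ^ 2) ω‖ ≤ c₀ / 4 := by
    have : Tk x₀ t (m ^ 2 + Nat.log 4 m) ω - Tk x₀ t (m ^ 2) ω =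
      (Tk x₀ t (m ^ 2 + Nat.log 4 m) ω - c) - (Tk x₀ t (m ^ 2) ω - c) := by ring
    rw [this]
    refine (norm_sub_le _ _).trans ?_
    linarith
  have h7 : ‖(1 + Complex.I)‖ ≤ 2 := by
    refine (norm_add_le _ _).trans ?_
    simp
    norm_num
  have h8 := Complex.re_le_norm
    ((1 + Complex.I) * (Tk x₀ t (m ^ 2 + Nat.log 4 m) ω - Tk x₀ t (m ^ 2) ω))
  rw [norm_mul] at h8
  have h9 : ‖(1 + Complex.I)‖ * ‖Tk x₀ t (m ^ 2 + Nat.log 4 m) ω - Tk x₀ t (m ^ 2) ω‖ ≤
      2 * (c₀ / 4) := by gcongr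
  have h10 : blk m = Finset.Ico (m ^ 2) (m ^ 2 + Nat.log 4 m) := rfl
  rw [h10] at h1
  linarith

end Pool.Agent.Lib.MP_d02974_an
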